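import Pool.Agent.Helper25.HM.K7

/-!
# HM-K8: the mean value theorem and the Halász-Montgomery-Huxley bound for all `n ≤ M`
-/

set_option autoImplicit false

namespace Pool.Agent.Helper25.HM

open Finset

/-- The polynomial of length `M`. -/
noncomputable def P {q : ℕ} (M : ℕ) (b : ℕ → ℂ) (p : DirichletCharacter ℂ q × ℤ) : ℂ :=
  ∑ n ∈ Icc 1 M, b n * (p.1 (n : ZMod q) * nt n p.2)

/-- The truncated coefficients. -/
noncomputable def tr (M : ℕ) (b : ℕ → ℂ) (n : ℕ) : ℂ := if n ≤ M then b n else 0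

/-- The number of dyadic pieces. -/
def JJ (M : ℕ) : ℕ := Nat.log 2 M + 1

lemma Icc_dyadic (J : ℕ) (g : ℕ → ℂ) : ∑ n ∈ Icc 1 (2 ^ J - 1), g n =
    ∑ j ∈ range J, ∑ n ∈ Ioc (2 ^ j - 1) (2 ^ (j + 1) - 1), g n := by
  induction J with
  | zero => simp
  | succ J ih =>
    rw [sum_range_succ, ← ih]
    have h1 : 1 ≤ 2 ^ J := Nat.one_le_two_pow
    have h2 : 2 ^ (J + 1) = 2 ^ J * 2 := pow_succ 2 J
    rw [← sum_union]
    · apply sum_congr _ (fun _ _ => rfl)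
      ext n
      simp only [mem_union, mem_Icc, mem_Ioc]
      omega
    · rw [Finset.disjoint_left]
      intro n
      simp only [mem_Icc, mem_Ioc]
      omega

lemma P_eq {q : ℕ} (M : ℕ) (b : ℕ → ℂ) (p : DirichletCharacter ℂ q × ℤ) :
    P M b p = ∑ j ∈ range (JJ M), D (2 ^ j - 1) (2 ^ (j + 1) - 1) (tr M b) p := by
  unfold D
  rw [← Icc_dyadic (JJ M) (fun n => tr M b n * (p.1 (n : ZMod q) * nt n p.2))]
  unfold P tr
  have hM : M < 2 ^ (JJ M) := Nat.lt_pow_succ_log_self (by norm_num) M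
  simp_rw [ite_mul, zero_mul]
  rw [← sum_filter]
  apply sum_congr _ (fun _ _ => rfl)
  ext n
  simp only [mem_Icc, mem_filter]
  omega

lemma piece_le {M j : ℕ} (hj : j ∈ range (JJ M)) (hM : 1 ≤ M) : 2 ^ j ≤ M := by
  rw [mem_range, JJ] at hj
  exact (Nat.pow_le_pow_right (by norm_num) (by omega)).trans (Nat.pow_log_le_self 2 (by omega))

/-- The hybrid mean value theorem for `n ≤ M`. -/
theorem mean_full {q : ℕ} [NeZero q] (T : ℕ) {M : ℕ} (hM : 1 ≤ M) (a : ℕ → ℂ) :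
    ∑ χ : DirichletCharacter ℂ q, ∑ k ∈ Icc (-(T : ℤ)) T, ‖P M a (χ, k)‖ ^ 2 ≤
      (JJ M) * ((q * (2 * T + 1) + 16 * M * (1 + Real.log (4 * M + 1))) *
        ∑ n ∈ Icc 1 M, ‖a n‖ ^ 2) := by
  classical
  have hM1 : (1 : ℝ) ≤ M := by exact_mod_cast hM
  have h1 : ∀ p : DirichletCharacter ℂ q × ℤ, ‖P M a p‖ ^ 2 ≤
      (JJ M) * ∑ j ∈ range (JJ M), ‖D (2 ^ j - 1) (2 ^ (j + 1) - 1) (tr M a) p‖ ^ 2 := by
    intro p
    rw [P_eq]
    have h2 : ‖∑ j ∈ range (JJ M), D (2 ^ j - 1) (2 ^ (j + 1) - 1) (tr M a) p‖ ≤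
        ∑ j ∈ range (JJ M), ‖D (2 ^ j - 1) (2 ^ (j + 1) - 1) (tr M a) p‖ := norm_sum_le _ _
    have h3 := sq_sum_le_card_mul_sum_sq (s := range (JJ M))
      (f := fun j => ‖D (2 ^ j - 1) (2 ^ (j + 1) - 1) (tr M a) p‖)
    rw [card_range] at h3
    exact (pow_le_pow_left₀ (norm_nonneg _) h2 2).trans h3
  calc ∑ χ : DirichletCharacter ℂ q, ∑ k ∈ Icc (-(T : ℤ)) T, ‖P M a (χ, k)‖ ^ 2
      ≤ ∑ χ : DirichletCharacter ℂ q, ∑ k ∈ Icc (-(T : ℤ)) T,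
        (JJ M) * ∑ j ∈ range (JJ M), ‖D (2 ^ j - 1) (2 ^ (j + 1) - 1) (tr M a) (χ, k)‖ ^ 2 :=
        sum_le_sum fun χ _ => sum_le_sum fun k _ => h1 (χ, k)
    _ = (JJ M) * ∑ j ∈ range (JJ M), ∑ χ : DirichletCharacter ℂ q, ∑ k ∈ Icc (-(T : ℤ)) T,
          ‖D (2 ^ j - 1) (2 ^ (j + 1) - 1) (tr M a) (χ, k)‖ ^ 2 := by
        simp_rw [← mul_sum]
        congr 1
        rw [show (∑ χ : DirichletCharacter ℂ q, ∑ k ∈ Icc (-(T : ℤ)) T, ∑ j ∈ range (JJ M),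
            ‖D (2 ^ j - 1) (2 ^ (j + 1) - 1) (tr M a) (χ, k)‖ ^ 2) =
            ∑ χ : DirichletCharacter ℂ q, ∑ j ∈ range (JJ M), ∑ k ∈ Icc (-(T : ℤ)) T,
            ‖D (2 ^ j - 1) (2 ^ (j + 1) - 1) (tr M a) (χ, k)‖ ^ 2 from
            sum_congr rfl fun χ _ => sum_comm]
        exact sum_comm
    _ ≤ (JJ M) * ∑ j ∈ range (JJ M), (q * (2 * T + 1) + 16 * M * (1 + Real.log (4 * M + 1))) *
          ∑ n ∈ Ioc (2 ^ j - 1) (2 ^ (j + 1) - 1), ‖tr M a n‖ ^ 2 := by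
        apply mul_le_mul_of_nonneg_left _ (Nat.cast_nonneg _)
        refine sum_le_sum fun j hj => ?_
        have hjM := piece_le hj hM
        have h2 : 2 ^ (j + 1) = 2 ^ j * 2 := pow_succ 2 j
        have h3 : 1 ≤ 2 ^ j := Nat.one_le_two_pow
        refine (mean T (L := 2 ^ j - 1) (L' := 2 ^ (j + 1) - 1) (by omega) (tr M a)).trans ?_
        apply mul_le_mul_of_nonneg_right _ (sum_nonneg fun _ _ => sq_nonneg _)
        have h4 : ((2 ^ (j + 1) - 1 : ℕ) : ℝ) ≤ 2 * M := by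
          have : 2 ^ (j + 1) - 1 ≤ 2 * M := by omega
          exact_mod_cast this
        have h5 : (0 : ℝ) ≤ ((2 ^ (j + 1) - 1 : ℕ) : ℝ) := Nat.cast_nonneg _
        have h6 : Real.log (2 * ((2 ^ (j + 1) - 1 : ℕ) : ℝ) + 1) ≤ Real.log (4 * M + 1) := by
          apply Real.log_le_log (by positivity)
          linarith
        have h7 : 0 ≤ Real.log (4 * (M : ℝ) + 1) := Real.log_nonneg (by linarith)
        have h9 : 0 ≤ Real.log (2 * ((2 ^ (j + 1) - 1 : ℕ) : ℝ) + 1) := Real.log_nonneg (by linarith)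
        have h8 : 8 * ((2 ^ (j + 1) - 1 : ℕ) : ℝ) * (1 + Real.log (2 * ((2 ^ (j + 1) - 1 : ℕ) : ℝ) + 1)) ≤
            8 * (2 * M) * (1 + Real.log (4 * M + 1)) := by gcongr
        linarith
    _ = (JJ M) * ((q * (2 * T + 1) + 16 * M * (1 + Real.log (4 * M + 1))) *
        ∑ n ∈ Icc 1 M, ‖a n‖ ^ 2) := by
        rw [← mul_sum]
        congr 2
        have h2 := Icc_dyadic (JJ M) (fun n => ((‖tr M a n‖ ^ 2 : ℝ) : ℂ))
        have h3 : ∑ j ∈ range (JJ M), ∑ n ∈ Ioc (2 ^ j - 1) (2 ^ (j + 1) - 1), ‖tr M a n‖ ^ 2 =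
            ∑ n ∈ Icc 1 (2 ^ (JJ M) - 1), ‖tr M a n‖ ^ 2 := by
          exact_mod_cast h2.symm
        rw [h3]
        have hM' : M < 2 ^ (JJ M) := Nat.lt_pow_succ_log_self (by norm_num) M
        symm
        have h4 : ∀ n ∈ Icc 1 M, ‖a n‖ ^ 2 = ‖tr M a n‖ ^ 2 := by
          intro n hn
          rw [mem_Icc] at hn
          unfold tr
          rw [if_pos hn.2]
        rw [sum_congr rfl h4]
        apply sum_subset
        · intro n hn
          rw [mem_Icc] at hn ⊢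
          omega
        · intro n hn hn2
          rw [mem_Icc] at hn hn2
          unfold tr
          rw [if_neg (by omega), norm_zero]
          norm_num

/-- The Halász-Montgomery-Huxley bound for `n ≤ M`. -/
theorem hm_full {q : ℕ} [NeZero q] (W : Finset (DirichletCharacter ℂ q × ℤ)) (H : ℕ) (hH : 1 ≤ H)
    (T : ℕ) (hT : ∀ p ∈ W, |p.2| ≤ T) {M : ℕ} (hM : 1 ≤ M)
    (b : ℕ → ℂ) {B : ℝ} (hB : 0 ≤ B) (hb : ∀ n ∈ Icc 1 M, ‖b n‖ ≤ B) {V : ℝ} (hV : 0 ≤ V)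
    (hVW : ∀ p ∈ W, V ≤ ‖P M b p‖)
    (hcond : 2 * (JJ M : ℝ) ^ 2 * (B ^ 2 * M * (q.divisors.card *
      (200 * Real.sqrt q * Real.sqrt H + 4 * Real.sqrt q * (1 + Real.log q)))) ≤ V ^ 2) :
    (W.card : ℝ) * V ^ 2 ≤ (JJ M : ℝ) ^ 3 * ((2 * T / H + 1) * (120 * (B ^ 2 * M ^ 2 * (q.divisors.card *
      (3 + 2 * Real.log (H + 1)))))) := by
  classical
  have hlogq : 0 ≤ Real.log q := Real.log_natCast_nonneg q
  have hlogH : 0 ≤ Real.log ((H : ℝ) + 1) :=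
    Real.log_nonneg (by linarith [(Nat.cast_nonneg H : (0 : ℝ) ≤ H)])
  have hM1 : (1 : ℝ) ≤ M := by exact_mod_cast hM
  have hJ0 : (0 : ℝ) < JJ M := by
    have : 0 < JJ M := by unfold JJ; omega
    exact_mod_cast this
  set τ : ℝ := (q.divisors.card : ℝ) with hτ
  set X : ℝ := 200 * Real.sqrt q * Real.sqrt H + 4 * Real.sqrt q * (1 + Real.log q) with hX
  have hX0 : 0 ≤ X := by positivity
  have hτ0 : 0 ≤ τ := Nat.cast_nonneg _
  set V' : ℝ := V / JJ M with hV'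
  have hV'0 : 0 ≤ V' := by positivity
  set Wj : ℕ → Finset (DirichletCharacter ℂ q × ℤ) := fun j => W.filter
    (fun p => V' ≤ ‖D (2 ^ j - 1) (2 ^ (j + 1) - 1) (tr M b) p‖) with hWj
  have hcov : W ⊆ (range (JJ M)).biUnion Wj := by
    intro p hp
    by_contra hcon
    have h1 : ∀ j ∈ range (JJ M), ‖D (2 ^ j - 1) (2 ^ (j + 1) - 1) (tr M b) p‖ < V' := by
      intro j hj
      by_contra h2
      push Not at h2
      apply hcon
      rw [mem_biUnion]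
      exact ⟨j, hj, mem_filter.2 ⟨hp, h2⟩⟩
    have h2 : ‖P M b p‖ < V := by
      rw [P_eq]
      refine lt_of_le_of_lt (norm_sum_le _ _) ?_
      have h3 : ∑ j ∈ range (JJ M), ‖D (2 ^ j - 1) (2 ^ (j + 1) - 1) (tr M b) p‖ <
          ∑ _j ∈ range (JJ M), V' := by
        apply sum_lt_sum_of_nonempty _ h1
        rw [nonempty_range_iff]
        unfold JJ
        omega
      rw [sum_const, card_range, nsmul_eq_mul, hV', mul_div_cancel₀ _ hJ0.ne'] at h3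
      exact h3
    exact absurd (hVW p hp) (not_le.2 h2)
  have hpiece : ∀ j ∈ range (JJ M), ((Wj j).card : ℝ) * V' ^ 2 ≤
      (2 * T / H + 1) * (120 * (B ^ 2 * M ^ 2 * (τ * (3 + 2 * Real.log (H + 1))))) := by
    intro j hj
    have hjM := piece_le hj hM
    have h2 : 2 ^ (j + 1) = 2 ^ j * 2 := pow_succ 2 j
    have h3 : 1 ≤ 2 ^ j := Nat.one_le_two_pow
    have hL1 : (((2 ^ j - 1 : ℕ) : ℝ) + 1) ≤ M := by
      have : 2 ^ j - 1 + 1 ≤ M := by omega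
      exact_mod_cast this
    have hL2 : ((2 ^ j - 1 : ℕ) : ℝ) ≤ M := by linarith
    have hL0 : (0 : ℝ) ≤ ((2 ^ j - 1 : ℕ) : ℝ) := Nat.cast_nonneg _
    have h4 := huxley (Wj j) H hH T (fun p hp => hT p (mem_filter.1 hp).1)
      (L := 2 ^ j - 1) (L' := 2 ^ (j + 1) - 1) (by omega) (tr M b) (B := B)
      (by
        intro n hn
        unfold tr
        split_ifs with h
        · rw [mem_Ioc] at hn
          exact hb n (mem_Icc.2 ⟨by omega, h⟩)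
        · rw [norm_zero]; exact hB) hV'0 (fun p hp => (mem_filter.1 hp).2)
      (by
        rw [← hτ, ← hX]
        have h5 : B ^ 2 * (((2 ^ j - 1 : ℕ) : ℝ) + 1) * (τ * X) ≤ B ^ 2 * M * (τ * X) := by gcongr
        have h6 : 2 * (B ^ 2 * M * (τ * X)) ≤ V' ^ 2 := by
          rw [hV', div_pow, le_div_iff₀ (by positivity)]
          linarith
        linarith)
    refine h4.trans ?_
    rw [← hτ]
    have hT0 : (0 : ℝ) ≤ 2 * T / H + 1 := by positivity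
    apply mul_le_mul_of_nonneg_left _ hT0
    have h7 : B ^ 2 * (((2 ^ j - 1 : ℕ) : ℝ) + 1) * (τ * (60 * ((2 ^ j - 1 : ℕ) : ℝ) *
        (3 + 2 * Real.log (H + 1)))) ≤ B ^ 2 * M * (τ * (60 * M * (3 + 2 * Real.log (H + 1)))) := by
      gcongr
    calc 2 * (B ^ 2 * (((2 ^ j - 1 : ℕ) : ℝ) + 1) * (τ * (60 * ((2 ^ j - 1 : ℕ) : ℝ) *
        (3 + 2 * Real.log (H + 1))))) ≤ 2 * (B ^ 2 * M * (τ * (60 * M * (3 + 2 * Real.log (H + 1))))) := by
          linarith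
      _ = 120 * (B ^ 2 * M ^ 2 * (τ * (3 + 2 * Real.log (H + 1)))) := by ring
  have h1 : (W.card : ℝ) ≤ ∑ j ∈ range (JJ M), ((Wj j).card : ℝ) := by
    have := (card_le_card hcov).trans card_biUnion_le
    exact_mod_cast this
  have h2 : (W.card : ℝ) * V' ^ 2 ≤ (JJ M) * ((2 * T / H + 1) * (120 * (B ^ 2 * M ^ 2 *
      (τ * (3 + 2 * Real.log (H + 1)))))) := by
    calc (W.card : ℝ) * V' ^ 2 ≤ (∑ j ∈ range (JJ M), ((Wj j).card : ℝ)) * V' ^ 2 :=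
          mul_le_mul_of_nonneg_right h1 (sq_nonneg _)
      _ = ∑ j ∈ range (JJ M), ((Wj j).card : ℝ) * V' ^ 2 := sum_mul _ _ _
      _ ≤ ∑ _j ∈ range (JJ M), (2 * T / H + 1) * (120 * (B ^ 2 * M ^ 2 *
          (τ * (3 + 2 * Real.log (H + 1))))) := sum_le_sum hpiece
      _ = _ := by rw [sum_const, card_range, nsmul_eq_mul]
  have h3 : V ^ 2 = (JJ M : ℝ) ^ 2 * V' ^ 2 := by
    rw [hV', div_pow]
    field_simp
  rw [h3]
  calc (W.card : ℝ) * ((JJ M : ℝ) ^ 2 * V' ^ 2) = (JJ M : ℝ) ^ 2 * ((W.card : ℝ) * V' ^ 2) := by ring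
    _ ≤ (JJ M : ℝ) ^ 2 * ((JJ M) * ((2 * T / H + 1) * (120 * (B ^ 2 * M ^ 2 *
      (τ * (3 + 2 * Real.log (H + 1))))))) := mul_le_mul_of_nonneg_left h2 (by positivity)
    _ = _ := by ring

end Pool.Agent.Helper25.HM
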