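import Pool.Agent.Helper25.HM.K9

/-!
# HM-K10: the separation theorem
-/

set_option autoImplicit false

namespace Pool.Agent.Helper25.HM

open Finset MeasureTheory

lemma exp_repr {δ β : ℝ} (hδ : 0 < δ) {n : ℕ} (hn : 1 ≤ n) :
    Integrable (fun t : ℝ => G δ β t * (nt n (-t) / Real.sqrt n)) ∧
    ∫ t : ℝ, G δ β t * (nt n (-t) / Real.sqrt n) = Complex.exp (-(n * w δ β)) := by
  have hn0 : (0 : ℝ) < n := by exact_mod_cast hn
  have hw0 := w_ne (β := β) hδ
  set ζ : ℂ := ((Real.log n : ℝ) : ℂ) + Complex.log (w δ β) with hζ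
  have him : |ζ.im| < Real.pi / 2 := by
    rw [hζ, Complex.add_im, Complex.ofReal_im, zero_add, Complex.log_im]
    exact abs_arg_lt hδ
  obtain ⟨h1, h2⟩ := Pool.Agent.Helper19.BD.mellin_exp (1 / 2) (by norm_num) ζ him
  have hexp : Complex.exp ζ = n * w δ β := by
    rw [hζ, Complex.exp_add, Complex.exp_log hw0, ← Complex.ofReal_exp, Real.exp_log hn0]
    push_cast
    rfl
  have hpt : ∀ t : ℝ, G δ β t * (nt n (-t) / Real.sqrt n) = (1 / (2 * Real.pi) : ℂ) *
      (Complex.Gamma (((1 / 2 : ℝ) : ℂ) + (t : ℂ) * Complex.I) *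
        Complex.exp (-(ζ * (((1 / 2 : ℝ) : ℂ) + (t : ℂ) * Complex.I)))) := by
    intro t
    have e1 : nt n (-t) / (Real.sqrt n : ℂ) =
        Complex.exp (-(((Real.log n : ℝ) : ℂ) * (((1 / 2 : ℝ) : ℂ) + (t : ℂ) * Complex.I))) := by
      have e2 : (Real.sqrt n : ℂ) = Complex.exp (((Real.log n / 2 : ℝ)) : ℂ) := by
        rw [← Complex.ofReal_exp]
        congr 1
        rw [Real.exp_half, Real.exp_log hn0]
      rw [e2, nt, ← Complex.exp_sub]
      congr 1
      push_cast
      ring
    rw [e1]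
    unfold G
    rw [hζ, add_mul, neg_add, Complex.exp_add]
    ring
  constructor
  · simp_rw [hpt]
    exact h1.const_mul _
  · simp_rw [hpt]
    rw [integral_const_mul, h2, hexp]

/-- The Dirichlet polynomial on the line. -/
noncomputable def Φ (X : ℕ) (f : ℕ → ℂ) (t : ℝ) : ℂ :=
  ∑ n ∈ Icc 1 X, f n * (nt n (-t) / Real.sqrt n)

lemma nt_cont (n : ℕ) : Continuous (fun t : ℝ => nt n t) := by
  unfold nt
  fun_prop

lemma Φ_cont (X : ℕ) (f : ℕ → ℂ) : Continuous (Φ X f) := by
  unfold Φ
  apply continuous_finset_sum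
  intro n _
  have := nt_cont n
  have h2 : Continuous (fun t : ℝ => nt n (-t)) := this.comp continuous_neg
  fun_prop

lemma norm_Φ_le (X : ℕ) (f : ℕ → ℂ) (t : ℝ) : ‖Φ X f t‖ ≤ ∑ n ∈ Icc 1 X, ‖f n‖ := by
  unfold Φ
  refine (norm_sum_le _ _).trans (sum_le_sum fun n hn => ?_)
  rw [mem_Icc] at hn
  have hn1 : (1 : ℝ) ≤ n := by exact_mod_cast hn.1
  have h1 : 1 ≤ Real.sqrt n := Real.one_le_sqrt.2 hn1
  rw [norm_mul, norm_div, norm_nt, Complex.norm_real, Real.norm_of_nonneg (Real.sqrt_nonneg _)]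
  have h2 : 1 / Real.sqrt n ≤ 1 := by
    rw [div_le_one (by linarith)]
    exact h1
  calc ‖f n‖ * (1 / Real.sqrt n) ≤ ‖f n‖ * 1 := mul_le_mul_of_nonneg_left h2 (norm_nonneg _)
    _ = ‖f n‖ := mul_one _

lemma exp_abs_int {a : ℝ} (ha : 0 < a) :
    ∫ t : ℝ, Real.exp (-(a * |t|)) = 2 / a := by
  have h1 : ∫ t : ℝ, Real.exp (-(a * |t|)) = 2 * ∫ t in Set.Ioi (0 : ℝ), Real.exp (-(a * t)) := by
    have := integral_comp_abs (f := fun t => Real.exp (-(a * t)))
    exact this
  rw [h1]
  have h2 : ∫ t in Set.Ioi (0 : ℝ), Real.exp (-(a * t)) = 1 / a := by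
    have := integral_exp_mul_Ioi (neg_lt_zero.2 ha) 0
    simp only [neg_mul] at this
    rw [this]
    simp
  rw [h2]
  ring

/-- The separation theorem. -/
theorem mellin_sep {β δ : ℝ} (hδ : 0 < δ) (X : ℕ) (f : ℕ → ℂ) (T : ℕ) {S A : ℝ}
    (hS : ∀ θ : ℝ, ∑ k ∈ Icc (-(T : ℤ)) T,
      ‖∑ n ∈ Icc 1 X, (f n / Real.sqrt n * nt n θ) * nt n k‖ ≤ S)
    (hA : ∑ n ∈ Icc 1 X, ‖f n‖ ≤ A) :
    ‖∑ n ∈ Icc 1 X, f n * Complex.exp (-(n * w δ β))‖ ≤
      1 / Real.sqrt (δ + |β|) * (S + A * (4 / cr δ β) * Real.exp (-(cr δ β / 2 * T))) := by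
  classical
  have hc := cr_pos (β := β) hδ
  set c : ℝ := cr δ β with hcdef
  have hA0 : 0 ≤ A := le_trans (sum_nonneg fun _ _ => norm_nonneg _) hA
  have hr : 0 ≤ 1 / Real.sqrt (δ + |β|) := by positivity
  -- the representation
  have hint : ∀ n ∈ Icc 1 X, Integrable (fun t : ℝ => f n * (G δ β t * (nt n (-t) / Real.sqrt n))) :=
    fun n hn => (exp_repr hδ (mem_Icc.1 hn).1).1.const_mul _
  have h1 : ∑ n ∈ Icc 1 X, f n * Complex.exp (-(n * w δ β)) = ∫ t : ℝ, G δ β t * Φ X f t := by
    have e1 : ∀ t : ℝ, G δ β t * Φ X f t =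
        ∑ n ∈ Icc 1 X, f n * (G δ β t * (nt n (-t) / Real.sqrt n)) := by
      intro t
      unfold Φ
      rw [mul_sum]
      refine sum_congr rfl fun n _ => ?_
      ring
    simp_rw [e1]
    rw [integral_finset_sum _ hint]
    refine sum_congr rfl fun n hn => ?_
    rw [integral_const_mul, (exp_repr hδ (mem_Icc.1 hn).1).2]
  -- integrability of the majorants
  have hI1 : Integrable (fun t : ℝ => Real.exp (-(c * |t|))) := Pool.Agent.Helper19.BD.int_exp_abs c hc
  have hI2 : Integrable (fun t : ℝ => Real.exp (-(c / 2 * |t|))) :=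
    Pool.Agent.Helper19.BD.int_exp_abs (c / 2) (by linarith)
  have hΦA : ∀ t, ‖Φ X f t‖ ≤ A := fun t => (norm_Φ_le X f t).trans hA
  set I : Set ℝ := Set.Ioc (-(T : ℝ)) (T + 1) with hI
  have hmaj : ∀ t : ℝ, ‖G δ β t * Φ X f t‖ ≤ 1 / Real.sqrt (δ + |β|) *
      (I.indicator (fun t => ‖Φ X f t‖) t +
        A * Real.exp (-(c / 2 * T)) * Real.exp (-(c / 2 * |t|))) := by
    intro t
    rw [norm_mul]
    have h2 := norm_G_le (β := β) hδ t
    rw [← hcdef] at h2
    refine (mul_le_mul_of_nonneg_right h2 (norm_nonneg _)).trans ?_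
    rw [mul_assoc]
    apply mul_le_mul_of_nonneg_left _ hr
    by_cases ht : t ∈ I
    · rw [Set.indicator_of_mem ht]
      have h3 : Real.exp (-(c * |t|)) ≤ 1 := by
        rw [Real.exp_le_one_iff]
        have := abs_nonneg t
        nlinarith
      have h4 : 0 ≤ A * Real.exp (-(c / 2 * T)) * Real.exp (-(c / 2 * |t|)) := by positivity
      nlinarith [norm_nonneg (Φ X f t)]
    · rw [Set.indicator_of_notMem ht, zero_add]
      have h3 : (T : ℝ) ≤ |t| := by
        by_contra hcon
        push Not at hcon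
        apply ht
        rw [abs_lt] at hcon
        exact ⟨hcon.1, by linarith⟩
      have h4 : Real.exp (-(c * |t|)) ≤ Real.exp (-(c / 2 * T)) * Real.exp (-(c / 2 * |t|)) := by
        rw [← Real.exp_add]
        apply Real.exp_le_exp.2
        nlinarith
      calc Real.exp (-(c * |t|)) * ‖Φ X f t‖
          ≤ (Real.exp (-(c / 2 * T)) * Real.exp (-(c / 2 * |t|))) * A :=
            mul_le_mul h4 (hΦA t) (norm_nonneg _) (by positivity)
        _ = _ := by ring
  have hind : Integrable (I.indicator (fun t => ‖Φ X f t‖)) := by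
    rw [integrable_indicator_iff measurableSet_Ioc]
    exact ((Φ_cont X f).norm.integrableOn_Ioc)
  have hmajI : Integrable (fun t : ℝ => 1 / Real.sqrt (δ + |β|) *
      (I.indicator (fun t => ‖Φ X f t‖) t +
        A * Real.exp (-(c / 2 * T)) * Real.exp (-(c / 2 * |t|)))) :=
    (hind.add (hI2.const_mul _)).const_mul _
  rw [h1]
  refine (norm_integral_le_of_norm_le hmajI (Filter.Eventually.of_forall hmaj)).trans ?_
  rw [integral_const_mul]
  apply mul_le_mul_of_nonneg_left _ hr
  rw [integral_add hind (hI2.const_mul _), integral_const_mul, exp_abs_int (by linarith)]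
  have h5 : 2 / (c / 2) = 4 / c := by field_simp; norm_num
  rw [h5]
  have h6 : ∫ t : ℝ, I.indicator (fun t => ‖Φ X f t‖) t ≤ S := by
    rw [integral_indicator measurableSet_Ioc]
    have hle : (-(T : ℝ)) ≤ T + 1 := by
      have : (0 : ℝ) ≤ T := Nat.cast_nonneg T
      linarith
    rw [← intervalIntegral.integral_of_le hle]
    -- cut into unit intervals
    set a : ℕ → ℝ := fun j => -(T : ℝ) + j with ha
    have hcont : Continuous (fun t => ‖Φ X f t‖) := (Φ_cont X f).norm
    have h7 : ∑ j ∈ range (2 * T + 1), ∫ t in (a j)..(a (j + 1)), ‖Φ X f t‖ =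
        ∫ t in (a 0)..(a (2 * T + 1)), ‖Φ X f t‖ :=
      intervalIntegral.sum_integral_adjacent_intervals (fun k _ => hcont.intervalIntegrable _ _)
    have h8 : a 0 = -(T : ℝ) := by simp [ha]
    have h9 : a (2 * T + 1) = T + 1 := by
      simp only [ha]
      push_cast
      ring
    rw [h8, h9] at h7
    rw [← h7]
    have h10 : ∀ j ∈ range (2 * T + 1), ∫ t in (a j)..(a (j + 1)), ‖Φ X f t‖ =
        ∫ θ in (0 : ℝ)..1, ‖Φ X f (a j + θ)‖ := by
      intro j _
      rw [intervalIntegral.integral_comp_add_left (fun t => ‖Φ X f t‖) (a j)]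
      congr 1
      · ring
      · simp only [ha]
        push_cast
        ring
    rw [sum_congr rfl h10]
    have hcont2 : ∀ j : ℕ, Continuous (fun θ : ℝ => ‖Φ X f (a j + θ)‖) := by
      intro j
      exact hcont.comp (continuous_const.add continuous_id)
    rw [← intervalIntegral.integral_finset_sum (fun j _ => (hcont2 j).intervalIntegrable _ _)]
    have h11 : ∀ θ : ℝ, ∑ j ∈ range (2 * T + 1), ‖Φ X f (a j + θ)‖ ≤ S := by
      intro θ
      refine le_trans (le_of_eq ?_) (hS (-θ))
      symm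
      apply Finset.sum_nbij' (fun k : ℤ => (T - k : ℤ).toNat) (fun j : ℕ => (T : ℤ) - j)
      · intro k hk
        rw [mem_Icc] at hk
        rw [mem_range]
        omega
      · intro j hj
        rw [mem_range] at hj
        rw [mem_Icc]
        omega
      · intro k hk
        rw [mem_Icc] at hk
        omega
      · intro j hj
        rw [mem_range] at hj
        omega
      · intro k hk
        rw [mem_Icc] at hk
        have hk2 : (((T - k : ℤ).toNat : ℕ) : ℝ) = T - k := by
          have : (((T - k : ℤ).toNat : ℕ) : ℤ) = T - k := Int.toNat_of_nonneg (by omega)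
          have h := congrArg (fun z : ℤ => (z : ℝ)) this
          push_cast at h
          exact h
        unfold Φ
        congr 1
        refine sum_congr rfl fun n _ => ?_
        have e1 : -(a (T - k : ℤ).toNat + θ) = -θ + k := by
          simp only [ha]
          rw [hk2]
          ring
        rw [e1, nt_add]
        ring
    calc ∫ θ in (0 : ℝ)..1, ∑ j ∈ range (2 * T + 1), ‖Φ X f (a j + θ)‖
        ≤ ∫ _θ in (0 : ℝ)..1, S := by
          apply intervalIntegral.integral_mono_on (by norm_num)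
          · exact (continuous_finset_sum _ fun j _ => hcont2 j).intervalIntegrable _ _
          · exact intervalIntegrable_const
          · intro θ _
            exact h11 θ
      _ = S := by simp
  have h7 : A * Real.exp (-(c / 2 * T)) * (4 / c) = A * (4 / c) * Real.exp (-(c / 2 * T)) := by ring
  rw [h7]
  linarith

end Pool.Agent.Helper25.HM
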