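import Pool.Agent.Helper25.HM.M5E

/-!
# The fifth moment over pairs `(χ, k)` for `q T ≤ N^(2/5 + 1/200)` (clean form, all `N ≥ 1`)
-/

open Finset Complex

namespace Pool.Agent.Helper25.HM

theorem m5s' {ε : ℝ} (hε : 0 < ε) : ∃ C : ℝ, 0 < C ∧ ∀ N : ℕ, 1 ≤ N → ∀ (q : ℕ) [NeZero q] (T : ℕ), 1 ≤ T →
    (q : ℝ) * T ≤ (N : ℝ) ^ ((2 : ℝ) / 5 + 1 / 200) → ∀ K : ℕ, (N : ℝ) ^ ((1 : ℝ) / 5 - 1 / 1000) ≤ K →
    (K : ℝ) ≤ (N : ℝ) ^ ((1 : ℝ) / 5 + 1 / 1000) → ∀ c : ℕ → ℂ, (∀ n, ‖c n‖ ≤ 1) →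
      ∑ p ∈ (univ : Finset (DirichletCharacter ℂ q)) ×ˢ Icc (-(T : ℤ)) T, ‖P K c p‖ ^ 5 ≤
        C * (N : ℝ) ^ ε * (K : ℝ) ^ 5 := by
  classical
  set e : ℝ := min (ε / 11) (1 / 1000) with he
  have he0 : 0 < e := lt_min (by positivity) (by norm_num)
  have he1 : e ≤ 1 / 1000 := min_le_right _ _
  have he2 : 11 * e ≤ ε := by
    have := min_le_left (ε / 11) (1 / 1000 : ℝ)
    rw [← he] at this
    linarith
  obtain ⟨N0, hN0⟩ := fifth_easy_large he0 he1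
  refine ⟨3 * N0 + 1, by positivity, fun N hN q _ T hT hqT K hK1 hK2 c hc => ?_⟩
  have hNr : (1 : ℝ) ≤ N := by exact_mod_cast hN
  have hNp : (0 : ℝ) < N := by linarith
  have hNε : 1 ≤ (N : ℝ) ^ ε := Real.one_le_rpow hNr hε.le
  have hK5 : 0 ≤ (K : ℝ) ^ 5 := by positivity
  by_cases hcase : N0 ≤ N
  · have h1 := hN0 N hcase q T hT (hqT.trans (Real.rpow_le_rpow_of_exponent_le hNr (by norm_num))) K
      ((Real.rpow_le_rpow_of_exponent_le hNr (by norm_num)).trans hK1) (hK2.trans ?_) c hc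
    · refine h1.trans ?_
      have h2 : (N : ℝ) ^ (11 * e) ≤ (N : ℝ) ^ ε := Real.rpow_le_rpow_of_exponent_le hNr he2
      have h3 : (1 : ℝ) ≤ 3 * N0 + 1 := by
        have : (0 : ℝ) ≤ N0 := Nat.cast_nonneg _
        linarith
      have h4 : (N : ℝ) ^ ε ≤ (3 * N0 + 1) * (N : ℝ) ^ ε := by nlinarith
      exact mul_le_mul_of_nonneg_right (h2.trans h4) hK5
    · have h5 : (N : ℝ) ^ ((1 : ℝ) / 5 + 1 / 1000) ≤ (N : ℝ) ^ (41 / 200 : ℝ) :=
        Real.rpow_le_rpow_of_exponent_le hNr (by norm_num)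
      have h6 : 0 ≤ (N : ℝ) ^ (41 / 200 : ℝ) := by positivity
      linarith
  · push Not at hcase
    have h1 : ∀ p ∈ (univ : Finset (DirichletCharacter ℂ q)) ×ˢ Icc (-(T : ℤ)) T,
        ‖P K c p‖ ^ 5 ≤ (K : ℝ) ^ 5 := fun p _ =>
      pow_le_pow_left₀ (norm_nonneg _) (P_triv K hc p) 5
    have h2 := sum_le_sum h1
    rw [sum_const, nsmul_eq_mul, card_product, card_univ] at h2
    have h3 : Fintype.card (DirichletCharacter ℂ q) ≤ q := by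
      rw [← Nat.card_eq_fintype_card, DirichletCharacter.card_eq_totient_of_hasEnoughRootsOfUnity]
      exact Nat.totient_le q
    have h4 : (Icc (-(T : ℤ)) T).card ≤ 3 * T := by
      rw [Int.card_Icc]
      omega
    have h5 : ((Fintype.card (DirichletCharacter ℂ q) * (Icc (-(T : ℤ)) T).card : ℕ) : ℝ) ≤ q * (3 * T) := by
      exact_mod_cast Nat.mul_le_mul h3 h4
    have h6 : (q : ℝ) * T ≤ N0 := by
      refine hqT.trans ?_
      have h7 : (N : ℝ) ^ ((2 : ℝ) / 5 + 1 / 200) ≤ (N : ℝ) ^ (1 : ℝ) :=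
        Real.rpow_le_rpow_of_exponent_le hNr (by norm_num)
      rw [Real.rpow_one] at h7
      refine h7.trans ?_
      exact_mod_cast hcase.le
    have h7 : ((Fintype.card (DirichletCharacter ℂ q) * (Icc (-(T : ℤ)) T).card : ℕ) : ℝ) ≤
        (3 * N0 + 1) * (N : ℝ) ^ ε := by
      have h8 : (0 : ℝ) ≤ N0 := Nat.cast_nonneg _
      have h9 : (3 * (N0 : ℝ) + 1) ≤ (3 * N0 + 1) * (N : ℝ) ^ ε := by nlinarith
      nlinarith
    exact h2.trans (mul_le_mul_of_nonneg_right h7 hK5)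

end Pool.Agent.Helper25.HM
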