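import Pool.Agent.Helper25.HM.K8
import Pool.Agent.Helper69.FF.DivS

/-!
# HM-M5E: the fifth moment over `(χ, k)` in the range `q T ≤ N^{2/5 + 1/200}`

`∑_χ ∑_{|k| ≤ T} |∑_{n ≤ K} c n χ(n) n^{ik}|⁵ ≤ C N^ε K⁵` for `N^{1/5 - 1/200} ≤ K ≤ 2 N^{1/5 + 1/200}`.
-/

set_option autoImplicit false

namespace Pool.Agent.Helper25.HM

open Finset

/-- the convolution of `f` on `[1, A]` and `g` on `[1, B]` -/
noncomputable def cv (A B : ℕ) (f g : ℕ → ℂ) (n : ℕ) : ℂ :=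
  ∑ p ∈ (Icc 1 A ×ˢ Icc 1 B).filter (fun p => p.1 * p.2 = n), f p.1 * g p.2

lemma cv_mul {q : ℕ} (A B : ℕ) (f g : ℕ → ℂ) (p : DirichletCharacter ℂ q × ℤ) :
    P A f p * P B g p = P (A * B) (cv A B f g) p := by
  unfold P
  rw [Finset.sum_mul_sum, ← Finset.sum_product']
  have hm : ∀ p ∈ Icc 1 A ×ˢ Icc 1 B, p.1 * p.2 ∈ Icc 1 (A * B) := by
    intro p hp
    rw [Finset.mem_product, Finset.mem_Icc, Finset.mem_Icc] at hp
    rw [Finset.mem_Icc]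
    exact ⟨Nat.mul_pos hp.1.1 hp.2.1, Nat.mul_le_mul hp.1.2 hp.2.2⟩
  rw [← Finset.sum_fiberwise_of_maps_to hm]
  refine Finset.sum_congr rfl fun n _ => ?_
  unfold cv
  rw [Finset.sum_mul]
  refine Finset.sum_congr rfl fun r hr => ?_
  have h1 : r.1 * r.2 = n := (Finset.mem_filter.1 hr).2
  have h2 := (Finset.mem_filter.1 hr).1
  rw [Finset.mem_product, Finset.mem_Icc, Finset.mem_Icc] at h2
  rw [← h1, Nat.cast_mul, map_mul, nt_mul (by omega) (by omega)]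
  ring

lemma cv_le {A B : ℕ} {f g : ℕ → ℂ} (hf : ∀ n, ‖f n‖ ≤ 1) (hg : ∀ n, ‖g n‖ ≤ 1)
    (n : ℕ) : ‖cv A B f g n‖ ≤ (n.divisors.card : ℝ) := by
  unfold cv
  refine (norm_sum_le _ _).trans ?_
  have h1 : ∀ p ∈ (Icc 1 A ×ˢ Icc 1 B).filter (fun p => p.1 * p.2 = n), ‖f p.1 * g p.2‖ ≤ 1 := by
    intro p _
    rw [norm_mul]
    calc ‖f p.1‖ * ‖g p.2‖ ≤ 1 * 1 := mul_le_mul (hf _) (hg _) (norm_nonneg _) zero_le_one
      _ = 1 := one_mul 1
  refine (Finset.sum_le_card_nsmul _ _ _ h1).trans ?_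
  rw [nsmul_eq_mul, mul_one]
  have h2 : ((Icc 1 A ×ˢ Icc 1 B).filter (fun p => p.1 * p.2 = n)).card ≤ n.divisors.card := by
    apply Finset.card_le_card_of_injOn (fun p => p.1)
    · intro p hp
      have hp' := Finset.mem_filter.1 (Finset.mem_coe.1 hp)
      rw [Finset.mem_product, Finset.mem_Icc, Finset.mem_Icc] at hp'
      rw [Finset.mem_coe, Nat.mem_divisors]
      refine ⟨⟨p.2, hp'.2.symm⟩, ?_⟩
      rw [← hp'.2]
      exact (Nat.mul_pos hp'.1.1.1 hp'.1.2.1).ne'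
    · intro p hp r hr he
      have hp' := Finset.mem_filter.1 (Finset.mem_coe.1 hp)
      have hr' := Finset.mem_filter.1 (Finset.mem_coe.1 hr)
      rw [Finset.mem_product, Finset.mem_Icc, Finset.mem_Icc] at hp' hr'
      have he' : p.1 = r.1 := he
      have e1 : p.1 * p.2 = p.1 * r.2 := by rw [hp'.2, he', hr'.2]
      have e2 : p.2 = r.2 := Nat.eq_of_mul_eq_mul_left hp'.1.1.1 e1
      exact Prod.ext he' e2
  exact_mod_cast h2

lemma P_triv {q : ℕ} (K : ℕ) {c : ℕ → ℂ} (hc : ∀ n, ‖c n‖ ≤ 1) (p : DirichletCharacter ℂ q × ℤ) :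
    ‖P K c p‖ ≤ K := by
  unfold P
  refine (norm_sum_le _ _).trans ?_
  have : ∀ n ∈ Icc 1 K, ‖c n * (p.1 (n : ZMod q) * nt n p.2)‖ ≤ 1 := by
    intro n _
    rw [norm_mul, norm_mul, norm_nt, mul_one]
    calc ‖c n‖ * ‖p.1 (n : ZMod q)‖ ≤ 1 * 1 :=
          mul_le_mul (hc n) (p.1.norm_le_one _) (norm_nonneg _) zero_le_one
      _ = 1 := one_mul 1
  refine (sum_le_sum this).trans ?_
  rw [sum_const, Nat.card_Icc, nsmul_eq_mul, mul_one]
  simp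

/-- one value against the levels -/
lemma level_one {V1 : ℝ} (hV1 : 0 < V1) (J : ℕ) : ∀ F : ℝ, 0 ≤ F → F ≤ 2 ^ J * V1 →
    F ^ 5 ≤ V1 * F ^ 4 + ∑ j ∈ range J, (if 2 ^ j * V1 ≤ F then 32 * (2 ^ j * V1) ^ 5 else 0) := by
  induction J with
  | zero =>
    intro F hF hFJ
    rw [pow_zero, one_mul] at hFJ
    simp only [range_zero, sum_empty, add_zero]
    have : F ^ 5 = F * F ^ 4 := by ring
    rw [this]
    exact mul_le_mul_of_nonneg_right hFJ (by positivity)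
  | succ J ih =>
    intro F hF hFJ
    rw [sum_range_succ]
    by_cases h : F ≤ 2 ^ J * V1
    · have h1 := ih F hF h
      have h2 : 0 ≤ (if 2 ^ J * V1 ≤ F then 32 * (2 ^ J * V1) ^ 5 else 0) := by
        split_ifs <;> positivity
      linarith
    · push Not at h
      rw [if_pos h.le]
      have h1 : F ^ 5 ≤ (2 ^ (J + 1) * V1) ^ 5 := pow_le_pow_left₀ hF hFJ 5
      have h2 : (2 ^ (J + 1) * V1) ^ 5 = 32 * (2 ^ J * V1) ^ 5 := by
        rw [pow_succ]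
        ring
      have h3 : 0 ≤ V1 * F ^ 4 := by positivity
      have h4 : 0 ≤ ∑ j ∈ range J, (if 2 ^ j * V1 ≤ F then 32 * (2 ^ j * V1) ^ 5 else 0) :=
        sum_nonneg fun j _ => by split_ifs <;> positivity
      linarith

/-- the fifth moment from the fourth moment and the counting of large values -/
lemma levels {ι : Type*} (s : Finset ι) (F : ι → ℝ) {V1 K Y : ℝ} (hV1 : 0 < V1) (hY : 0 ≤ Y)
    (hF : ∀ i ∈ s, 0 ≤ F i) (hFK : ∀ i ∈ s, F i ≤ K) (J : ℕ) (hJ : K ≤ 2 ^ J * V1)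
    (hlarge : ∀ V : ℝ, V1 ≤ V → V ≤ K → ((s.filter (fun i => V ≤ F i)).card : ℝ) * V ^ 4 ≤ Y)
    (hK : 0 ≤ K) :
    ∑ i ∈ s, F i ^ 5 ≤ V1 * ∑ i ∈ s, F i ^ 4 + 32 * J * (Y * K) := by
  have h1 : ∑ i ∈ s, F i ^ 5 ≤ ∑ i ∈ s, (V1 * F i ^ 4 +
      ∑ j ∈ range J, (if 2 ^ j * V1 ≤ F i then 32 * (2 ^ j * V1) ^ 5 else 0)) :=
    sum_le_sum fun i hi => level_one hV1 J (F i) (hF i hi) ((hFK i hi).trans hJ)
  refine h1.trans ?_
  rw [sum_add_distrib, ← mul_sum, sum_comm]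
  have h2 : ∀ j ∈ range J, ∑ i ∈ s, (if 2 ^ j * V1 ≤ F i then 32 * (2 ^ j * V1) ^ 5 else 0) ≤
      32 * (Y * K) := by
    intro j _
    rw [← sum_filter, sum_const, nsmul_eq_mul]
    have hVj : V1 ≤ 2 ^ j * V1 := by
      have : (1 : ℝ) ≤ 2 ^ j := one_le_pow₀ (by norm_num)
      nlinarith
    by_cases h : 2 ^ j * V1 ≤ K
    · have h3 := hlarge (2 ^ j * V1) hVj h
      have h4 : 0 ≤ 2 ^ j * V1 := by positivity
      calc ((s.filter (fun i => 2 ^ j * V1 ≤ F i)).card : ℝ) * (32 * (2 ^ j * V1) ^ 5)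
          = 32 * ((((s.filter (fun i => 2 ^ j * V1 ≤ F i)).card : ℝ) * (2 ^ j * V1) ^ 4) *
            (2 ^ j * V1)) := by ring
        _ ≤ 32 * (Y * K) := by gcongr
    · push Not at h
      have h3 : s.filter (fun i => 2 ^ j * V1 ≤ F i) = ∅ := by
        rw [filter_eq_empty_iff]
        intro i hi h4
        linarith [hFK i hi]
      rw [h3, card_empty, Nat.cast_zero, zero_mul]
      positivity
  have h3 := sum_le_sum h2
  rw [sum_const, card_range, nsmul_eq_mul] at h3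
  linarith

/-- powers beat constants and logarithms -/
lemma ev_log {e : ℝ} (he : 0 < e) (a b : ℝ) : ∃ N0 : ℕ, ∀ N : ℕ, N0 ≤ N →
    a + b * Real.log N ≤ (N : ℝ) ^ e := by
  have h1 : (fun x : ℝ => a + b * Real.log x) =o[Filter.atTop] (fun x : ℝ => x ^ e) := by
    have h2 : (fun x : ℝ => Real.log x) =o[Filter.atTop] (fun x : ℝ => x ^ e) := isLittleO_log_rpow_atTop he
    have h3 : (fun _ : ℝ => a) =o[Filter.atTop] (fun x : ℝ => x ^ e) := by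
      rw [Asymptotics.isLittleO_const_left]
      right
      exact tendsto_norm_atTop_atTop.comp (tendsto_rpow_atTop he)
    exact h3.add (h2.const_mul_left b)
  have h2 := h1.bound (c := 1) one_pos
  have h3 : ∀ᶠ x : ℝ in Filter.atTop, a + b * Real.log x ≤ x ^ e := by
    filter_upwards [h2, Filter.eventually_ge_atTop 0] with x hx hx0
    rw [one_mul, Real.norm_eq_abs, Real.norm_eq_abs, abs_of_nonneg (Real.rpow_nonneg hx0 _)] at hx
    exact (le_abs_self _).trans hx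
  have h4 := tendsto_natCast_atTop_atTop.eventually h3
  obtain ⟨N0, hN0⟩ := Filter.eventually_atTop.1 h4
  exact ⟨N0, fun N hN => hN0 N hN⟩

lemma log2_le (M : ℕ) (hM : 1 ≤ M) : (Nat.log 2 M : ℝ) ≤ 2 * Real.log M := by
  have h5 : (2 : ℝ) ^ (Nat.log 2 M) ≤ M := by
    exact_mod_cast Nat.pow_log_le_self 2 (by omega)
  have h6 : (Nat.log 2 M : ℝ) * Real.log 2 ≤ Real.log M := by
    rw [← Real.log_pow]
    exact Real.log_le_log (by positivity) h5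
  have h7 := Real.log_two_gt_d9
  have h8 : (0 : ℝ) ≤ (Nat.log 2 M : ℝ) := Nat.cast_nonneg _
  nlinarith

/-- The fifth moment in the easy range, for large `N` and small `ε`. -/
theorem fifth_easy_large {e : ℝ} (he : 0 < e) (he1 : e ≤ 1 / 1000) : ∃ N0 : ℕ, ∀ N : ℕ, N0 ≤ N →
    ∀ (q : ℕ) [NeZero q] (T : ℕ), 1 ≤ T → ((q : ℝ) * T) ≤ (N : ℝ) ^ (81 / 200 : ℝ) →
    ∀ K : ℕ, (N : ℝ) ^ (39 / 200 : ℝ) ≤ K → (K : ℝ) ≤ 2 * (N : ℝ) ^ (41 / 200 : ℝ) →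
    ∀ c : ℕ → ℂ, (∀ n, ‖c n‖ ≤ 1) →
    ∑ p ∈ (univ : Finset (DirichletCharacter ℂ q)) ×ˢ Icc (-(T : ℤ)) T, ‖P K c p‖ ^ 5 ≤
      (N : ℝ) ^ (11 * e) * (K : ℝ) ^ 5 := by
  classical
  obtain ⟨Cd, hCd, hdiv⟩ := Pool.Agent.Helper69.FF.div_bound (ε := e / 4) (by positivity)
  obtain ⟨N1, hN1⟩ := ev_log he (10 ^ 6) (10 ^ 3)
  obtain ⟨N2, hN2⟩ := ev_log (e := e / 4) (by positivity) (Cd * 4 + 4) 0
  refine ⟨max (max N1 N2) 2, fun N hN q _ T hT hqT K hK1 hK2 c hc => ?_⟩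
  have hNN1 : N1 ≤ N := ((le_max_left _ _).trans (le_max_left _ _)).trans hN
  have hNN2 : N2 ≤ N := ((le_max_right _ _).trans (le_max_left _ _)).trans hN
  have hN2' : 2 ≤ N := (le_max_right _ _).trans hN
  have hNr : (1 : ℝ) ≤ N := by exact_mod_cast (by omega : 1 ≤ N)
  have hNp : (0 : ℝ) < N := by linarith
  have hlogN : 0 ≤ Real.log N := Real.log_nonneg hNr
  set Λ : ℝ := (N : ℝ) ^ e with hΛ
  have hΛ1 : 10 ^ 6 + 10 ^ 3 * Real.log N ≤ Λ := hN1 N hNN1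
  have hΛ6 : (10 : ℝ) ^ 6 ≤ Λ := by nlinarith
  have hΛ0 : 0 < Λ := by linarith
  have hq0 : (0 : ℝ) < q := by exact_mod_cast Nat.pos_of_ne_zero (NeZero.ne q)
  have hq1 : (1 : ℝ) ≤ q := by exact_mod_cast Nat.one_le_iff_ne_zero.2 (NeZero.ne q)
  have hT1 : (1 : ℝ) ≤ T := by exact_mod_cast hT
  -- sizes
  have hpow1 : (N : ℝ) ^ (81 / 200 : ℝ) ≤ N := by
    calc (N : ℝ) ^ (81 / 200 : ℝ) ≤ (N : ℝ) ^ (1 : ℝ) :=
          Real.rpow_le_rpow_of_exponent_le hNr (by norm_num)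
      _ = N := Real.rpow_one _
  have hqN : (q : ℝ) ≤ N := by
    have : (q : ℝ) ≤ q * T := by nlinarith
    linarith
  have hTN : (T : ℝ) ≤ N := by
    have : (T : ℝ) ≤ q * T := by nlinarith
    linarith
  have hK0 : (1 : ℝ) ≤ K := by
    have : (1 : ℝ) ≤ (N : ℝ) ^ (39 / 200 : ℝ) := Real.one_le_rpow hNr (by norm_num)
    linarith
  have hKpos : 1 ≤ K := by exact_mod_cast hK0
  have hKsq : (K : ℝ) ^ 2 ≤ 4 * (N : ℝ) ^ (82 / 200 : ℝ) := by
    have h1 : (K : ℝ) ^ 2 ≤ (2 * (N : ℝ) ^ (41 / 200 : ℝ)) ^ 2 := pow_le_pow_left₀ (by linarith) hK2 2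
    refine h1.trans (le_of_eq ?_)
    rw [mul_pow, ← Real.rpow_natCast ((N : ℝ) ^ (41 / 200 : ℝ)), ← Real.rpow_mul hNp.le]
    norm_num
  have hKsqN : (K : ℝ) ^ 2 ≤ 4 * N := by
    refine hKsq.trans ?_
    have : (N : ℝ) ^ (82 / 200 : ℝ) ≤ N := by
      calc (N : ℝ) ^ (82 / 200 : ℝ) ≤ (N : ℝ) ^ (1 : ℝ) :=
            Real.rpow_le_rpow_of_exponent_le hNr (by norm_num)
        _ = N := Real.rpow_one _
    linarith
  have hlogq : Real.log q ≤ Real.log N := Real.log_le_log hq0 hqN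
  have hlogq0 : 0 ≤ Real.log q := Real.log_nonneg hq1
  -- the number `M = K * K`
  set M : ℕ := K * K with hM
  have hMr : (M : ℝ) = (K : ℝ) ^ 2 := by rw [hM]; push_cast; ring
  have hM1 : 1 ≤ M := Nat.mul_pos hKpos hKpos
  have hM1r : (1 : ℝ) ≤ M := by exact_mod_cast hM1
  have hM4N : (M : ℝ) ≤ 4 * N := by rw [hMr]; exact hKsqN
  have hlog4N : Real.log (4 * (N : ℝ)) ≤ 2 + Real.log N := by
    rw [Real.log_mul (by norm_num) hNp.ne']
    have : Real.log 4 = 2 * Real.log 2 := by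
      rw [show (4 : ℝ) = 2 ^ 2 by norm_num, Real.log_pow]
      push_cast
      ring
    rw [this]
    have := Real.log_two_lt_d9
    linarith
  have hlogM : Real.log M ≤ 2 + Real.log N := (Real.log_le_log (by linarith) hM4N).trans hlog4N
  have hJJ : (JJ M : ℝ) ≤ Λ := by
    unfold JJ
    push_cast
    have := log2_le M hM1
    nlinarith
  have hJJ0 : (0 : ℝ) ≤ (JJ M : ℝ) := Nat.cast_nonneg _
  have hlog1 : 16 * (1 + Real.log (4 * M + 1)) ≤ Λ / 4 := by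
    have h1 : 4 * (M : ℝ) + 1 ≤ 4 * N * 8 := by nlinarith
    have h2 : Real.log (4 * M + 1) ≤ Real.log (4 * N * 8) := Real.log_le_log (by linarith) h1
    rw [Real.log_mul (by positivity) (by norm_num)] at h2
    have h3 : Real.log 8 ≤ 3 := by
      have : Real.log 8 = 3 * Real.log 2 := by
        rw [show (8 : ℝ) = 2 ^ 3 by norm_num, Real.log_pow]
        push_cast
        ring
      rw [this]
      have := Real.log_two_lt_d9
      linarith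
    nlinarith
  have hlogT : 3 + 2 * Real.log (T + 1) ≤ Λ := by
    have h2 : Real.log ((T : ℝ) + 1) ≤ Real.log (4 * N) := Real.log_le_log (by linarith) (by linarith)
    nlinarith
  have hτq : (q.divisors.card : ℝ) ≤ Λ := by
    have h1 := hdiv q (NeZero.ne q)
    have h2 : (q : ℝ) ^ (e / 4) ≤ (N : ℝ) ^ (e / 4) := Real.rpow_le_rpow hq0.le hqN (by positivity)
    have h3 : Cd * 4 + 4 + 0 * Real.log N ≤ (N : ℝ) ^ (e / 4) := hN2 N hNN2
    have h4 : Cd ≤ (N : ℝ) ^ (e / 4) := by linarith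
    have h5 : Λ = (N : ℝ) ^ (e / 4) * (N : ℝ) ^ (e / 4) * ((N : ℝ) ^ (e / 4) * (N : ℝ) ^ (e / 4)) := by
      rw [← Real.rpow_add hNp, ← Real.rpow_add hNp, hΛ]
      congr 1
      ring
    have h6 : (1 : ℝ) ≤ (N : ℝ) ^ (e / 4) := Real.one_le_rpow hNr (by positivity)
    rw [h5]
    calc (q.divisors.card : ℝ) ≤ (N : ℝ) ^ (e / 4) * (N : ℝ) ^ (e / 4) :=
          h1.trans (mul_le_mul h4 h2 (by positivity) (by positivity))
      _ ≤ _ := by
          apply le_mul_of_one_le_right (by positivity)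
          nlinarith
  have hτ0 : (0 : ℝ) ≤ (q.divisors.card : ℝ) := Nat.cast_nonneg _
  -- the square
  set b : ℕ → ℂ := cv K K c c with hb
  have hsq : ∀ p : DirichletCharacter ℂ q × ℤ, ‖P K c p‖ ^ 2 = ‖P M b p‖ := by
    intro p
    rw [hb, hM, ← cv_mul, norm_mul]
    ring
  have hbB : ∀ n ∈ Icc 1 M, ‖b n‖ ≤ Λ := by
    intro n hn
    rw [mem_Icc] at hn
    have h0 : (0 : ℝ) < n := by exact_mod_cast (by omega : 0 < n)
    have hn4 : (n : ℝ) ≤ 4 * N := by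
      have : (n : ℝ) ≤ M := by exact_mod_cast hn.2
      linarith
    refine (cv_le hc hc n).trans ?_
    have h1 := hdiv n (by omega)
    have h2 : (n : ℝ) ^ (e / 4) ≤ 4 * (N : ℝ) ^ (e / 4) := by
      calc (n : ℝ) ^ (e / 4) ≤ (4 * (N : ℝ)) ^ (e / 4) := Real.rpow_le_rpow h0.le hn4 (by positivity)
        _ = (4 : ℝ) ^ (e / 4) * (N : ℝ) ^ (e / 4) := Real.mul_rpow (by norm_num) hNp.le
        _ ≤ 4 * (N : ℝ) ^ (e / 4) := by
          apply mul_le_mul_of_nonneg_right _ (by positivity)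
          calc (4 : ℝ) ^ (e / 4) ≤ (4 : ℝ) ^ (1 : ℝ) :=
                Real.rpow_le_rpow_of_exponent_le (by norm_num) (by linarith)
            _ = 4 := Real.rpow_one _
    have h3 : Cd * 4 + 4 + 0 * Real.log N ≤ (N : ℝ) ^ (e / 4) := hN2 N hNN2
    have h4 : Cd * 4 ≤ (N : ℝ) ^ (e / 4) := by linarith
    have h5 : Λ = (N : ℝ) ^ (e / 4) * (N : ℝ) ^ (e / 4) * ((N : ℝ) ^ (e / 4) * (N : ℝ) ^ (e / 4)) := by
      rw [← Real.rpow_add hNp, ← Real.rpow_add hNp, hΛ]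
      congr 1
      ring
    have h6 : (1 : ℝ) ≤ (N : ℝ) ^ (e / 4) := Real.one_le_rpow hNr (by positivity)
    rw [h5]
    calc (n.divisors.card : ℝ) ≤ Cd * (4 * (N : ℝ) ^ (e / 4)) :=
          h1.trans (mul_le_mul_of_nonneg_left h2 hCd.le)
      _ = Cd * 4 * (N : ℝ) ^ (e / 4) := by ring
      _ ≤ (N : ℝ) ^ (e / 4) * (N : ℝ) ^ (e / 4) := mul_le_mul_of_nonneg_right h4 (by positivity)
      _ ≤ _ := by
          apply le_mul_of_one_le_right (by positivity)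
          nlinarith
  set s := (univ : Finset (DirichletCharacter ℂ q)) ×ˢ Icc (-(T : ℤ)) T with hs
  have hQ0 : 0 < (q : ℝ) * T := by positivity
  -- the fourth moment
  have hS4 : ∑ p ∈ s, ‖P K c p‖ ^ 4 ≤ Λ ^ 4 * ((q * T + (K : ℝ) ^ 2) * (K : ℝ) ^ 2) := by
    have h1 : ∑ p ∈ s, ‖P K c p‖ ^ 4 =
        ∑ χ : DirichletCharacter ℂ q, ∑ k ∈ Icc (-(T : ℤ)) T, ‖P M b (χ, k)‖ ^ 2 := by
      rw [hs, sum_product]
      refine sum_congr rfl fun χ _ => sum_congr rfl fun k _ => ?_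
      rw [← hsq]
      ring
    rw [h1]
    refine (mean_full T hM1 b).trans ?_
    have h2 : ∑ n ∈ Icc 1 M, ‖b n‖ ^ 2 ≤ Λ ^ 2 * (K : ℝ) ^ 2 := by
      have : ∀ n ∈ Icc 1 M, ‖b n‖ ^ 2 ≤ Λ ^ 2 := fun n hn =>
        pow_le_pow_left₀ (norm_nonneg _) (hbB n hn) 2
      refine (sum_le_sum this).trans (le_of_eq ?_)
      rw [sum_const, Nat.card_Icc, nsmul_eq_mul, ← hMr]
      simp only [Nat.add_sub_cancel]
      ring
    have h3 : (q : ℝ) * (2 * T + 1) + 16 * M * (1 + Real.log (4 * M + 1)) ≤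
        Λ * (q * T + (K : ℝ) ^ 2) := by
      have e1 : (q : ℝ) * (2 * T + 1) ≤ 3 * (q * T) := by nlinarith
      have e2 : 16 * (M : ℝ) * (1 + Real.log (4 * M + 1)) ≤ Λ / 4 * (K : ℝ) ^ 2 := by
        rw [hMr] at hlog1 ⊢
        nlinarith [mul_le_mul_of_nonneg_left hlog1 (sq_nonneg (K : ℝ))]
      nlinarith [sq_nonneg (K : ℝ)]
    have h4 : 0 ≤ (q : ℝ) * (2 * T + 1) + 16 * M * (1 + Real.log (4 * M + 1)) := by
      have : 0 ≤ Real.log (4 * (M : ℝ) + 1) := Real.log_nonneg (by linarith)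
      positivity
    calc (JJ M : ℝ) * ((q * (2 * T + 1) + 16 * M * (1 + Real.log (4 * M + 1))) *
          ∑ n ∈ Icc 1 M, ‖b n‖ ^ 2)
        ≤ Λ * ((Λ * (q * T + (K : ℝ) ^ 2)) * (Λ ^ 2 * (K : ℝ) ^ 2)) := by gcongr
      _ = Λ ^ 4 * ((q * T + (K : ℝ) ^ 2) * (K : ℝ) ^ 2) := by ring
  -- the threshold
  set Z : ℝ := (q : ℝ) * T + (K : ℝ) ^ 2 with hZ
  have hZ0 : 0 < Z := by positivity
  set V1 : ℝ := (K : ℝ) ^ 3 / Z with hV1
  have hV10 : 0 < V1 := by positivity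
  have hZle : Z ≤ 5 * (N : ℝ) ^ (82 / 200 : ℝ) := by
    have : (N : ℝ) ^ (81 / 200 : ℝ) ≤ (N : ℝ) ^ (82 / 200 : ℝ) :=
      Real.rpow_le_rpow_of_exponent_le hNr (by norm_num)
    rw [hZ]
    linarith
  have hV1low : (N : ℝ) ^ (35 / 200 : ℝ) / 5 ≤ V1 := by
    rw [hV1, le_div_iff₀ hZ0]
    have h1 : ((N : ℝ) ^ (39 / 200 : ℝ)) ^ 3 ≤ (K : ℝ) ^ 3 := pow_le_pow_left₀ (by positivity) hK1 3
    have h2 : ((N : ℝ) ^ (39 / 200 : ℝ)) ^ 3 = (N : ℝ) ^ (35 / 200 : ℝ) * (N : ℝ) ^ (82 / 200 : ℝ) := by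
      rw [← Real.rpow_natCast, ← Real.rpow_mul hNp.le, ← Real.rpow_add hNp]
      norm_num
    have h3 : 0 < (N : ℝ) ^ (35 / 200 : ℝ) := by positivity
    nlinarith
  -- large values
  have hlarge : ∀ V : ℝ, V1 ≤ V → V ≤ K →
      ((s.filter (fun p => V ≤ ‖P K c p‖)).card : ℝ) * V ^ 4 ≤ Λ ^ 8 * (K : ℝ) ^ 4 := by
    intro V hV _
    have hV0 : 0 < V := lt_of_lt_of_le hV10 hV
    set W := s.filter (fun p => V ≤ ‖P K c p‖) with hW
    have hcond : 2 * (JJ M : ℝ) ^ 2 * (Λ ^ 2 * M * (q.divisors.card *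
      (200 * Real.sqrt q * Real.sqrt T + 4 * Real.sqrt q * (1 + Real.log q)))) ≤ (V ^ 2) ^ 2 := by
      have h1 : 200 * Real.sqrt q * Real.sqrt T + 4 * Real.sqrt q * (1 + Real.log q) ≤
          Λ * Real.sqrt (q * T) := by
        rw [Real.sqrt_mul hq0.le]
        have e1 : 1 ≤ Real.sqrt T := Real.one_le_sqrt.2 hT1
        have e2 : 0 ≤ Real.sqrt q := Real.sqrt_nonneg q
        have e3 : 4 * Real.sqrt q * (1 + Real.log q) ≤
            4 * Real.sqrt q * (1 + Real.log q) * Real.sqrt T :=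
          le_mul_of_one_le_right (by positivity) e1
        have e4 : 200 + 4 * (1 + Real.log q) ≤ Λ := by nlinarith
        calc 200 * Real.sqrt q * Real.sqrt T + 4 * Real.sqrt q * (1 + Real.log q)
            ≤ 200 * Real.sqrt q * Real.sqrt T + 4 * Real.sqrt q * (1 + Real.log q) * Real.sqrt T := by
              linarith
          _ = (200 + 4 * (1 + Real.log q)) * (Real.sqrt q * Real.sqrt T) := by ring
          _ ≤ Λ * (Real.sqrt q * Real.sqrt T) := by gcongr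
      have h1' : 0 ≤ 200 * Real.sqrt q * Real.sqrt T + 4 * Real.sqrt q * (1 + Real.log q) := by
        positivity
      have h2 : Real.sqrt (q * T) ≤ (N : ℝ) ^ (81 / 400 : ℝ) := by
        rw [Real.sqrt_le_left (by positivity)]
        refine hqT.trans (le_of_eq ?_)
        rw [← Real.rpow_natCast, ← Real.rpow_mul hNp.le]
        norm_num
      have h3 : 2 * (JJ M : ℝ) ^ 2 * (Λ ^ 2 * M * (q.divisors.card *
          (200 * Real.sqrt q * Real.sqrt T + 4 * Real.sqrt q * (1 + Real.log q)))) ≤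
          2 * Λ ^ 2 * (Λ ^ 2 * (4 * (N : ℝ) ^ (82 / 200 : ℝ)) * (Λ * (Λ * (N : ℝ) ^ (81 / 400 : ℝ)))) := by
        have : (M : ℝ) ≤ 4 * (N : ℝ) ^ (82 / 200 : ℝ) := by rw [hMr]; exact hKsq
        gcongr
        exact h1.trans (mul_le_mul_of_nonneg_left h2 hΛ0.le)
      refine h3.trans ?_
      have h4 : ((N : ℝ) ^ (35 / 200 : ℝ) / 5) ^ 4 ≤ V ^ 4 :=
        pow_le_pow_left₀ (by positivity) (hV1low.trans hV) 4
      have h5 : (V ^ 2) ^ 2 = V ^ 4 := by ring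
      rw [h5]
      refine le_trans ?_ h4
      have h6 : ((N : ℝ) ^ (35 / 200 : ℝ) / 5) ^ 4 = (N : ℝ) ^ (7 / 10 : ℝ) / 625 := by
        rw [div_pow, ← Real.rpow_natCast ((N : ℝ) ^ (35 / 200 : ℝ)), ← Real.rpow_mul hNp.le]
        norm_num
      rw [h6, le_div_iff₀ (by norm_num)]
      have h7 : (N : ℝ) ^ (7 / 10 : ℝ) = (N : ℝ) ^ (82 / 200 : ℝ) * (N : ℝ) ^ (81 / 400 : ℝ) *
          (N : ℝ) ^ (7 / 80 : ℝ) := by
        rw [← Real.rpow_add hNp, ← Real.rpow_add hNp]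
        norm_num
      have h8 : Λ ^ 7 ≤ (N : ℝ) ^ (7 / 80 : ℝ) := by
        rw [hΛ, ← Real.rpow_natCast, ← Real.rpow_mul hNp.le]
        apply Real.rpow_le_rpow_of_exponent_le hNr
        push_cast
        linarith
      have h9 : (5000 : ℝ) * Λ ^ 6 ≤ Λ ^ 7 := by
        have : Λ ^ 7 = Λ * Λ ^ 6 := by ring
        rw [this]
        apply mul_le_mul_of_nonneg_right _ (by positivity)
        linarith
      rw [h7]
      calc 2 * Λ ^ 2 * (Λ ^ 2 * (4 * (N : ℝ) ^ (82 / 200 : ℝ)) * (Λ * (Λ * (N : ℝ) ^ (81 / 400 : ℝ)))) * 625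
          = (N : ℝ) ^ (82 / 200 : ℝ) * (N : ℝ) ^ (81 / 400 : ℝ) * (5000 * Λ ^ 6) := by ring
        _ ≤ (N : ℝ) ^ (82 / 200 : ℝ) * (N : ℝ) ^ (81 / 400 : ℝ) * (N : ℝ) ^ (7 / 80 : ℝ) := by
          apply mul_le_mul_of_nonneg_left (h9.trans h8) (by positivity)
    have h1 := hm_full W T hT T (fun p hp => by
        rw [hW, mem_filter, hs, mem_product, mem_Icc] at hp
        rw [abs_le]
        exact hp.1.2) hM1 b hΛ0.le hbB (V := V ^ 2) (by positivity)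
      (fun p hp => by
        rw [hW, mem_filter] at hp
        rw [← hsq]
        exact pow_le_pow_left₀ hV0.le hp.2 2) hcond
    have h2 : (V ^ 2) ^ 2 = V ^ 4 := by ring
    rw [h2] at h1
    refine h1.trans ?_
    have h3 : (2 * (T : ℝ) / T + 1) = 3 := by
      field_simp
      norm_num
    rw [h3, hMr]
    have h4 : 0 ≤ 3 + 2 * Real.log ((T : ℝ) + 1) := by
      have : 0 ≤ Real.log ((T : ℝ) + 1) := Real.log_nonneg (by linarith)
      linarith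
    calc (JJ M : ℝ) ^ 3 * (3 * (120 * (Λ ^ 2 * ((K : ℝ) ^ 2) ^ 2 * (q.divisors.card *
          (3 + 2 * Real.log (T + 1))))))
        ≤ Λ ^ 3 * (3 * (120 * (Λ ^ 2 * ((K : ℝ) ^ 2) ^ 2 * (Λ * Λ)))) := by gcongr
      _ = 360 * (Λ ^ 7 * (K : ℝ) ^ 4) := by ring
      _ ≤ Λ * (Λ ^ 7 * (K : ℝ) ^ 4) := by
          apply mul_le_mul_of_nonneg_right _ (by positivity)
          linarith
      _ = Λ ^ 8 * (K : ℝ) ^ 4 := by ring
  -- the number of levels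
  set J : ℕ := JJ M with hJ
  have hKJ : (K : ℝ) ≤ 2 ^ J * V1 := by
    have h1 : (M : ℝ) < 2 ^ J := by
      have : M < 2 ^ J := Nat.lt_pow_succ_log_self (by norm_num) M
      exact_mod_cast this
    have hZK : Z ≤ (K : ℝ) ^ 4 := by
      have e1 : (q : ℝ) * T ≤ (N : ℝ) ^ (81 / 200 : ℝ) := hqT
      have e2 : ((N : ℝ) ^ (39 / 200 : ℝ)) ^ 4 ≤ (K : ℝ) ^ 4 := pow_le_pow_left₀ (by positivity) hK1 4
      have e3 : ((N : ℝ) ^ (39 / 200 : ℝ)) ^ 4 = (N : ℝ) ^ (81 / 200 : ℝ) * (N : ℝ) ^ (75 / 200 : ℝ) := by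
        rw [← Real.rpow_natCast, ← Real.rpow_mul hNp.le, ← Real.rpow_add hNp]
        norm_num
      have e4 : (2 : ℝ) ≤ (N : ℝ) ^ (75 / 200 : ℝ) := by
        have : Λ ≤ (N : ℝ) ^ (75 / 200 : ℝ) := Real.rpow_le_rpow_of_exponent_le hNr (by linarith)
        linarith
      have e5 : 0 < (N : ℝ) ^ (81 / 200 : ℝ) := by positivity
      have e6 : (2 : ℝ) ≤ (K : ℝ) ^ 2 := by
        have f1 : ((N : ℝ) ^ (39 / 200 : ℝ)) ^ 2 ≤ (K : ℝ) ^ 2 := pow_le_pow_left₀ (by positivity) hK1 2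
        have f2 : Λ ≤ ((N : ℝ) ^ (39 / 200 : ℝ)) ^ 2 := by
          rw [← Real.rpow_natCast, ← Real.rpow_mul hNp.le]
          apply Real.rpow_le_rpow_of_exponent_le hNr
          push_cast
          linarith
        linarith
      have e7 : 2 * ((q : ℝ) * T) ≤ (K : ℝ) ^ 4 := by nlinarith
      have e8 : 2 * (K : ℝ) ^ 2 ≤ (K : ℝ) ^ 4 := by nlinarith [sq_nonneg (K : ℝ)]
      rw [hZ]
      linarith
    have h2 : (K : ℝ) ≤ M * V1 := by
      rw [hMr, hV1, mul_div_assoc', le_div_iff₀ hZ0]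
      calc (K : ℝ) * Z ≤ K * (K : ℝ) ^ 4 := mul_le_mul_of_nonneg_left hZK (by linarith)
        _ = (K : ℝ) ^ 2 * (K : ℝ) ^ 3 := by ring
    exact h2.trans (mul_le_mul_of_nonneg_right h1.le hV10.le)
  have hfin := levels s (fun p => ‖P K c p‖) (V1 := V1) (K := K) (Y := Λ ^ 8 * (K : ℝ) ^ 4) hV10
    (by positivity) (fun p _ => norm_nonneg _) (fun p _ => P_triv K hc p) J hKJ hlarge (by linarith)
  refine hfin.trans ?_
  have h1 : V1 * ∑ p ∈ s, ‖P K c p‖ ^ 4 ≤ Λ ^ 4 * (K : ℝ) ^ 5 := by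
    calc V1 * ∑ p ∈ s, ‖P K c p‖ ^ 4 ≤ V1 * (Λ ^ 4 * (Z * (K : ℝ) ^ 2)) :=
          mul_le_mul_of_nonneg_left hS4 hV10.le
      _ = Λ ^ 4 * (K : ℝ) ^ 5 := by
          rw [hV1]
          field_simp
  have h2 : 32 * (J : ℝ) * (Λ ^ 8 * (K : ℝ) ^ 4 * K) ≤ Λ ^ 10 * (K : ℝ) ^ 5 := by
    calc 32 * (J : ℝ) * (Λ ^ 8 * (K : ℝ) ^ 4 * K) ≤ Λ * Λ * (Λ ^ 8 * (K : ℝ) ^ 4 * K) := by
          have : (32 : ℝ) ≤ Λ := by linarith
          gcongr
      _ = Λ ^ 10 * (K : ℝ) ^ 5 := by ring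
  have h3 : Λ ^ 4 * (K : ℝ) ^ 5 ≤ Λ ^ 10 * (K : ℝ) ^ 5 := by
    apply mul_le_mul_of_nonneg_right _ (by positivity)
    exact pow_le_pow_right₀ (by linarith) (by norm_num)
  have h4 : (N : ℝ) ^ (11 * e) = Λ * Λ ^ 10 := by
    rw [hΛ, ← Real.rpow_natCast, ← Real.rpow_mul hNp.le, ← Real.rpow_add hNp]
    congr 1
    push_cast
    ring
  rw [h4]
  have h5 : 0 ≤ Λ ^ 10 * (K : ℝ) ^ 5 := by positivity
  calc V1 * ∑ p ∈ s, ‖P K c p‖ ^ 4 + 32 * (J : ℝ) * (Λ ^ 8 * (K : ℝ) ^ 4 * K)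
      ≤ 2 * (Λ ^ 10 * (K : ℝ) ^ 5) := by linarith
    _ ≤ Λ * (Λ ^ 10 * (K : ℝ) ^ 5) := by
        apply mul_le_mul_of_nonneg_right _ h5
        linarith
    _ = Λ * Λ ^ 10 * (K : ℝ) ^ 5 := by ring

end Pool.Agent.Helper25.HM
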