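import Mathlib

/-!
# Halász-Montgomery for `∑ b(n) χ(n) n^{it}`: definitions (MP_b6b996_nt, stage 2)
-/

set_option autoImplicit false

namespace Pool.Agent.Helper25.HM

open Finset

/-- `n^{it}` for `n ≥ 1`. -/
noncomputable def nt (n : ℕ) (t : ℝ) : ℂ := Complex.exp (Complex.I * ((t * Real.log n : ℝ) : ℂ))

lemma norm_nt (n : ℕ) (t : ℝ) : ‖nt n t‖ = 1 := by
  unfold nt
  rw [mul_comm, Complex.norm_exp_ofReal_mul_I]

lemma nt_zero (n : ℕ) : nt n 0 = 1 := by simp [nt]

lemma nt_add (n : ℕ) (s t : ℝ) : nt n (s + t) = nt n s * nt n t := by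
  unfold nt
  rw [← Complex.exp_add]
  congr 1
  push_cast
  ring

lemma conj_nt (n : ℕ) (t : ℝ) : (starRingEnd ℂ) (nt n t) = nt n (-t) := by
  unfold nt
  rw [← Complex.exp_conj]
  congr 1
  simp only [map_mul, Complex.conj_I, Complex.conj_ofReal]
  push_cast
  ring

lemma nt_mul {m n : ℕ} (hm : m ≠ 0) (hn : n ≠ 0) (t : ℝ) : nt (m * n) t = nt m t * nt n t := by
  unfold nt
  rw [← Complex.exp_add]
  congr 1
  push_cast
  rw [Real.log_mul (by exact_mod_cast hm) (by exact_mod_cast hn)]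
  push_cast
  ring

end Pool.Agent.Helper25.HM
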