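import Pool.Agent.Helper22.GC.VdC
import Pool.Agent.Helper25.HM.Defs

/-!
# HM-K1: the sums `∑ n^{it} e(n x)` over `(L, L']`, `L' ≤ 2 L + 1`
-/

set_option autoImplicit false

namespace Pool.Agent.Helper25.HM

open Finset
open Pool.Agent.Helper22.GC (ee norm_ee)

/-- The phase. -/
noncomputable def ph (s x : ℝ) (n : ℕ) : ℝ := -(s / (2 * Real.pi)) * Real.log n + n * x

lemma ee_ph (s x : ℝ) (n : ℕ) : ee (ph s x n) = nt n (-s) * ee (n * x) := by
  unfold ee nt ph
  rw [← Complex.exp_add]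
  congr 1
  have : (Real.pi : ℂ) ≠ 0 := by exact_mod_cast Real.pi_ne_zero
  push_cast
  field_simp

lemma ph_diff (s x : ℝ) {n : ℕ} (hn : 1 ≤ n) :
    ph s x (n + 1) - ph s x n = x - s / (2 * Real.pi) * Real.log (1 + 1 / n) := by
  unfold ph
  have h0 : (0 : ℝ) < n := by exact_mod_cast hn
  have h1 : (1 : ℝ) + 1 / n = ((n + 1 : ℕ) : ℝ) / n := by
    push_cast
    field_simp
  rw [h1, Real.log_div (by positivity) (by positivity)]
  push_cast
  ring

lemma log_bounds {n : ℕ} (hn : 1 ≤ n) : 0 ≤ Real.log (1 + 1 / (n : ℝ)) ∧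
    Real.log (1 + 1 / (n : ℝ)) ≤ 1 / n := by
  have h0 : (0 : ℝ) < n := by exact_mod_cast hn
  constructor
  · apply Real.log_nonneg
    have : (0 : ℝ) ≤ 1 / n := by positivity
    linarith
  · have := Real.log_le_sub_one_of_pos (x := 1 + 1 / (n : ℝ)) (by positivity)
    linarith

lemma log_step {n : ℕ} (hn : 1 ≤ n) :
    1 / ((n : ℝ) + 1) ^ 2 ≤ Real.log (1 + 1 / (n : ℝ)) - Real.log (1 + 1 / ((n + 1 : ℕ) : ℝ)) := by
  have h0 : (0 : ℝ) < n := by exact_mod_cast hn
  rw [← Real.log_div (by positivity) (by positivity)]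
  have e1 : (1 + 1 / (n : ℝ)) / (1 + 1 / ((n + 1 : ℕ) : ℝ)) =
      (1 - 1 / ((n : ℝ) + 1) ^ 2)⁻¹ := by
    have h1 : (1 : ℝ) - 1 / ((n : ℝ) + 1) ^ 2 ≠ 0 := by
      have : (1 : ℝ) - 1 / ((n : ℝ) + 1) ^ 2 = n * (n + 2) / ((n : ℝ) + 1) ^ 2 := by
        field_simp
        ring
      rw [this]
      positivity
    apply eq_inv_of_mul_eq_one_left
    push_cast
    field_simp
    ring
  rw [e1, Real.log_inv]
  have h2 : (0 : ℝ) < 1 - 1 / ((n : ℝ) + 1) ^ 2 := by
    have : (1 : ℝ) - 1 / ((n : ℝ) + 1) ^ 2 = n * (n + 2) / ((n : ℝ) + 1) ^ 2 := by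
      field_simp
      ring
    rw [this]
    positivity
  have := Real.log_le_sub_one_of_pos h2
  linarith

lemma ph_step {s : ℝ} (hs : 0 ≤ s) (x : ℝ) {n : ℕ} (hn : 1 ≤ n) :
    s / (2 * Real.pi) * (1 / ((n : ℝ) + 1) ^ 2) ≤
      (ph s x (n + 2) - ph s x (n + 1)) - (ph s x (n + 1) - ph s x n) := by
  rw [ph_diff s x hn]
  have := ph_diff s x (n := n + 1) (by omega)
  rw [this]
  have h1 := log_step hn
  have h2 : 0 ≤ s / (2 * Real.pi) := by
    have := Real.pi_pos
    positivity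
  nlinarith [mul_le_mul_of_nonneg_left h1 h2]

/-- Far from the resonance: Kusmin-Landau. -/
theorem add_far {s δ : ℝ} (hs : 0 ≤ s) (hδ : 0 < δ) {L L' : ℕ} (hL : 1 ≤ L) (x : ℝ) (m : ℤ)
    (h1 : m + δ ≤ x) (h2 : x ≤ m + 1 - δ) (h3 : s ≤ Real.pi * L * δ) :
    ‖∑ n ∈ Ioc L L', nt n (-s) * ee (n * x)‖ ≤ 2 / δ := by
  have hpi := Real.pi_pos
  have e0 : Ioc L L' = Ico (L + 1) (L' + 1) := by
    ext n
    simp only [mem_Ioc, mem_Ico]
    omega
  have e1 : ∑ n ∈ Ioc L L', nt n (-s) * ee (n * x) = ∑ n ∈ Ico (L + 1) (L' + 1), ee (ph s x n) := by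
    rw [e0]
    exact sum_congr rfl fun n _ => (ee_ph s x n).symm
  rw [e1]
  have hL0 : (0 : ℝ) < L := by exact_mod_cast hL
  have hsd : s / (2 * Real.pi) ≤ L * (δ / 2) := by
    rw [div_le_iff₀ (by positivity)]
    nlinarith
  have hlow : ∀ n : ℕ, L + 1 ≤ n → n < L' + 1 → m + δ / 2 ≤ ph s x (n + 1) - ph s x n := by
    intro n hn _
    have hn1 : 1 ≤ n := by omega
    rw [ph_diff s x hn1]
    have hn0 : (0 : ℝ) < n := by exact_mod_cast hn1
    have hb := log_bounds hn1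
    have hnL : (L : ℝ) ≤ n := by exact_mod_cast (by omega : L ≤ n)
    have h4 : s / (2 * Real.pi) * Real.log (1 + 1 / n) ≤ L * (δ / 2) * (1 / n) := by
      apply mul_le_mul hsd hb.2 hb.1 (by positivity)
    have h5 : L * (δ / 2) * (1 / n) ≤ δ / 2 := by
      rw [mul_one_div, div_le_iff₀ hn0]
      nlinarith
    linarith
  have key := Pool.Agent.Helper22.GC.kusmin_landau (f := ph s x) (a := L + 1) (b := L' + 1)
    (θ := δ / 2) (m := m) (by linarith)
    (fun n hn _ => by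
      have := ph_step hs x (n := n) (by omega)
      have h4 : 0 ≤ s / (2 * Real.pi) * (1 / ((n : ℝ) + 1) ^ 2) := by positivity
      linarith)
    hlow
    (fun n hn _ => by
      have hn1 : 1 ≤ n := by omega
      rw [ph_diff s x hn1]
      have hb := log_bounds hn1
      have h4 : 0 ≤ s / (2 * Real.pi) * Real.log (1 + 1 / n) := mul_nonneg (by positivity) hb.1
      linarith)
  refine key.trans (le_of_eq ?_)
  field_simp

/-- The second derivative test. -/
theorem add_second {s : ℝ} (hs : 0 < s) {L L' : ℕ} (hL : 1 ≤ L) (hL' : L' ≤ 2 * L + 1) (x : ℝ) :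
    ‖∑ n ∈ Ioc L L', nt n (-s) * ee (n * x)‖ ≤ 100 * (Real.sqrt s + L / Real.sqrt s) := by
  have hpi := Real.pi_pos
  have hpi3 := Real.pi_gt_three
  have hpi4 := Real.pi_lt_d2
  have hL0 : (1 : ℝ) ≤ L := by exact_mod_cast hL
  have hss : 0 < Real.sqrt s := Real.sqrt_pos.2 hs
  have hsq : Real.sqrt s ^ 2 = s := Real.sq_sqrt hs.le
  rcases le_or_gt s ((L : ℝ) ^ 2) with hsL | hsL
  swap
  · -- trivial bound
    have h1 : ‖∑ n ∈ Ioc L L', nt n (-s) * ee (n * x)‖ ≤ L + 1 := by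
      refine (norm_sum_le _ _).trans ?_
      have : ∀ n ∈ Ioc L L', ‖nt n (-s) * ee (n * x)‖ ≤ 1 := by
        intro n _
        rw [norm_mul, norm_nt, norm_ee, one_mul]
      refine (sum_le_sum this).trans ?_
      rw [sum_const, Nat.card_Ioc, nsmul_eq_mul, mul_one]
      have : L' - L ≤ L + 1 := by omega
      exact_mod_cast this
    have h2 : (L : ℝ) < Real.sqrt s := by
      rw [Real.lt_sqrt (by linarith)]
      exact hsL
    have h3 : 0 ≤ (L : ℝ) / Real.sqrt s := by positivity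
    nlinarith
  have e0 : Ioc L L' = Ico (L + 1) (L' + 1) := by
    ext n
    simp only [mem_Ioc, mem_Ico]
    omega
  have e1 : ∑ n ∈ Ioc L L', nt n (-s) * ee (n * x) = ∑ n ∈ Ico (L + 1) (L' + 1), ee (ph s x n) := by
    rw [e0]
    exact sum_congr rfl fun n _ => (ee_ph s x n).symm
  rw [e1]
  have hl : 0 < s / (18 * Real.pi * (L : ℝ) ^ 2) := by positivity
  have hl4 : s / (18 * Real.pi * (L : ℝ) ^ 2) ≤ 1 / 4 := by
    rw [div_le_iff₀ (by positivity)]
    nlinarith [sq_nonneg (L : ℝ)]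
  have hV0 : 0 ≤ s / (2 * Real.pi * L) := by positivity
  have key := Pool.Agent.Helper22.GC.second_deriv_test (f := ph s x) (a := L + 1) (b := L' + 1)
    (l := s / (18 * Real.pi * (L : ℝ) ^ 2)) (V := s / (2 * Real.pi * L)) hl hl4 hV0
    (fun n hn hn2 => by
      refine le_trans ?_ (ph_step hs.le x (n := n) (by omega))
      have hn3 : (n : ℝ) + 1 ≤ 3 * L := by
        have : n + 1 ≤ 3 * L := by omega
        exact_mod_cast this
      have h4 : ((n : ℝ) + 1) ^ 2 ≤ 9 * (L : ℝ) ^ 2 := by nlinarith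
      rw [div_mul_div_comm, mul_one]
      apply div_le_div_of_nonneg_left hs.le (by positivity)
      nlinarith)
    (fun p q hp hpq hq => by
      have hp1 : 1 ≤ p := by omega
      have hq1 : 1 ≤ q := by omega
      rw [ph_diff s x hp1, ph_diff s x hq1]
      have hb := log_bounds hp1
      have hb2 := log_bounds hq1
      have hp0 : (0 : ℝ) < p := by exact_mod_cast hp1
      have hpL : (L : ℝ) ≤ p := by exact_mod_cast (by omega : L ≤ p)
      have h4 : 0 ≤ s / (2 * Real.pi) := by positivity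
      have h5 : s / (2 * Real.pi) * Real.log (1 + 1 / p) ≤ s / (2 * Real.pi) * (1 / L) := by
        apply mul_le_mul_of_nonneg_left _ h4
        refine hb.2.trans ?_
        exact one_div_le_one_div_of_le (by linarith) hpL
      have h6 : 0 ≤ s / (2 * Real.pi) * Real.log (1 + 1 / q) := mul_nonneg h4 hb2.1
      have h7 : s / (2 * Real.pi) * (1 / L) = s / (2 * Real.pi * L) := by
        field_simp
      linarith)
  refine key.trans ?_
  have h1 : Real.sqrt (s / (18 * Real.pi * (L : ℝ) ^ 2)) = Real.sqrt s / (Real.sqrt (18 * Real.pi) * L) := by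
    rw [Real.sqrt_div hs.le, Real.sqrt_mul (by positivity), Real.sqrt_sq (by linarith)]
  have h2 : Real.sqrt (18 * Real.pi) ≤ 8 := by
    rw [Real.sqrt_le_left (by norm_num)]
    nlinarith
  have h2' : 0 < Real.sqrt (18 * Real.pi) := Real.sqrt_pos.2 (by positivity)
  rw [h1]
  have h3 : 5 * (s / (2 * Real.pi * L) + 2) / (Real.sqrt s / (Real.sqrt (18 * Real.pi) * L)) =
      Real.sqrt (18 * Real.pi) * (5 * (Real.sqrt s / (2 * Real.pi)) + 10 * (L / Real.sqrt s)) := by
    generalize Real.sqrt s = r at hss hsq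
    subst hsq
    field_simp
    ring
  rw [h3]
  have h4 : Real.sqrt s / (2 * Real.pi) ≤ Real.sqrt s := by
    rw [div_le_iff₀ (by positivity)]
    nlinarith
  have h5 : 0 ≤ (L : ℝ) / Real.sqrt s := by positivity
  calc Real.sqrt (18 * Real.pi) * (5 * (Real.sqrt s / (2 * Real.pi)) + 10 * (L / Real.sqrt s))
      ≤ 8 * (5 * Real.sqrt s + 10 * (L / Real.sqrt s)) := by gcongr
    _ ≤ 100 * (Real.sqrt s + L / Real.sqrt s) := by nlinarith

end Pool.Agent.Helper25.HM
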