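import Pool.Agent.Helper25.HM.K1

/-!
# HM-K2: the sums `∑ χ(n) n^{it}` over `(L, L']` for primitive `χ`
-/

set_option autoImplicit false

namespace Pool.Agent.Helper25.HM

open Finset
open Pool.Agent.Helper22.GC (ee norm_ee)

/-- Parseval on `ZMod q`. -/
theorem parseval (q : ℕ) [NeZero q] (c : ZMod q → ℂ) :
    ∑ a : ZMod q, ‖∑ b : ZMod q, c b * ZMod.stdAddChar (a * b)‖ ^ 2 = q * ∑ b : ZMod q, ‖c b‖ ^ 2 := by
  have hconj : ∀ x : ZMod q, (starRingEnd ℂ) (ZMod.stdAddChar x) = ZMod.stdAddChar (-x) := by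
    intro x
    rw [ZMod.stdAddChar_apply, ZMod.stdAddChar_apply, AddChar.map_neg_eq_inv, Circle.coe_inv_eq_conj]
  have hC : (∑ a : ZMod q, ((‖∑ b : ZMod q, c b * ZMod.stdAddChar (a * b)‖ ^ 2 : ℝ) : ℂ)) =
      (((q : ℝ) * ∑ b : ZMod q, ‖c b‖ ^ 2 : ℝ) : ℂ) := by
    have h1 : ∀ a : ZMod q, ((‖∑ b : ZMod q, c b * ZMod.stdAddChar (a * b)‖ ^ 2 : ℝ) : ℂ)
        = ∑ b : ZMod q, ∑ d : ZMod q, (c b * (starRingEnd ℂ) (c d)) *
          ZMod.stdAddChar (a * (b - d)) := by
      intro a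
      rw [Complex.ofReal_pow, ← Complex.mul_conj', map_sum, Finset.sum_mul_sum]
      refine Finset.sum_congr rfl fun b _ => Finset.sum_congr rfl fun d _ => ?_
      rw [(starRingEnd ℂ).map_mul, hconj]
      have : a * (b - d) = a * b + -(a * d) := by ring
      rw [this, AddChar.map_add_eq_mul]
      ring
    rw [Finset.sum_congr rfl fun l _ => h1 l, Finset.sum_comm]
    push_cast
    rw [Finset.mul_sum]
    refine Finset.sum_congr rfl fun b _ => ?_
    rw [Finset.sum_comm]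
    rw [Finset.sum_eq_single b]
    · rw [← Finset.mul_sum, AddChar.sum_mulShift _ (ZMod.isPrimitive_stdAddChar q)]
      simp only [sub_self, if_true, ZMod.card]
      rw [Complex.mul_conj']
      ring
    · intro d _ hdb
      rw [← Finset.mul_sum, AddChar.sum_mulShift _ (ZMod.isPrimitive_stdAddChar q)]
      rw [if_neg (sub_ne_zero.2 hdb.symm), Nat.cast_zero, mul_zero]
    · intro h; exact absurd (mem_univ b) h
  exact_mod_cast hC

/-- The norm of the Gauss sum of a primitive character. -/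
theorem norm_gaussSum {q : ℕ} [NeZero q] (χ : DirichletCharacter ℂ q) (hχ : χ.IsPrimitive) :
    ‖gaussSum χ ZMod.stdAddChar‖ = Real.sqrt q := by
  have h1 := parseval q (fun b => χ b)
  have h2 : ∀ a : ZMod q, ∑ b : ZMod q, χ b * ZMod.stdAddChar (a * b) =
      χ⁻¹ a * gaussSum χ ZMod.stdAddChar := by
    intro a
    rw [← gaussSum_mulShift_of_isPrimitive _ hχ a]
    unfold gaussSum
    refine Finset.sum_congr rfl fun b _ => ?_
    rw [AddChar.mulShift_apply]
  simp_rw [h2, norm_mul, mul_pow] at h1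
  rw [← Finset.sum_mul] at h1
  have h3 : ∑ a : ZMod q, ‖χ⁻¹ a‖ ^ 2 = ∑ b : ZMod q, ‖χ b‖ ^ 2 := by
    refine Finset.sum_congr rfl fun b _ => ?_
    by_cases hb : IsUnit b
    · rw [MulChar.inv_apply_eq_inv', norm_inv]
      have : ‖χ b‖ = 1 := by
        obtain ⟨u, rfl⟩ := hb
        exact DirichletCharacter.unit_norm_eq_one χ u
      rw [this]
      norm_num
    · rw [MulChar.map_nonunit _ hb, MulChar.map_nonunit _ hb]
  rw [h3] at h1
  have h4 : 0 < ∑ b : ZMod q, ‖χ b‖ ^ 2 := by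
    apply Finset.sum_pos'
    · intro b _; positivity
    · refine ⟨1, mem_univ _, ?_⟩
      rw [map_one, norm_one]
      norm_num
  have h5 : ‖gaussSum χ ZMod.stdAddChar‖ ^ 2 = q := by
    have := mul_left_cancel₀ h4.ne' (h1.trans (mul_comm _ _))
    exact this
  rw [← h5, Real.sqrt_sq (norm_nonneg _)]

lemma std_eq_ee (q : ℕ) [NeZero q] (n b : ℕ) :
    (ZMod.stdAddChar ((n : ZMod q) * (b : ZMod q)) : ℂ) = ee (n * (b / q)) := by
  have h := ZMod.stdAddChar_coe (N := q) ((n : ℤ) * b)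
  push_cast at h
  rw [h]
  unfold ee
  congr 1
  push_cast
  ring

lemma sum_zmod_range (q : ℕ) [NeZero q] (F : ZMod q → ℂ) :
    ∑ b : ZMod q, F b = ∑ b ∈ range q, F (b : ZMod q) := by
  symm
  apply Finset.sum_bij (fun (b : ℕ) (_ : b ∈ range q) => (b : ZMod q))
  · intro b _; exact mem_univ _
  · intro b hb c hc h
    have := (ZMod.natCast_eq_natCast_iff' b c q).1 h
    rwa [Nat.mod_eq_of_lt (mem_range.1 hb), Nat.mod_eq_of_lt (mem_range.1 hc)] at this
  · intro x _
    exact ⟨x.val, mem_range.2 x.val_lt, ZMod.natCast_zmod_val x⟩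
  · intro b _; rfl

/-- Expansion of a primitive character in additive characters. -/
theorem expand {q : ℕ} [NeZero q] (χ : DirichletCharacter ℂ q) (hχ : χ.IsPrimitive) (n : ℕ) :
    χ⁻¹ (n : ZMod q) * gaussSum χ ZMod.stdAddChar =
      ∑ b ∈ range q, χ (b : ZMod q) * ee (n * (b / q)) := by
  rw [← gaussSum_mulShift_of_isPrimitive _ hχ (n : ZMod q)]
  unfold gaussSum
  rw [sum_zmod_range]
  refine Finset.sum_congr rfl fun b _ => ?_
  rw [AddChar.mulShift_apply, std_eq_ee]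

end Pool.Agent.Helper25.HM
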