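import Pool.Agent.Helper25.HM.K2

/-!
# HM-K3: the kernel for primitive characters
-/

set_option autoImplicit false

namespace Pool.Agent.Helper25.HM

open Finset
open Pool.Agent.Helper22.GC (ee norm_ee)

lemma harm (q : ℕ) : ∑ b ∈ Ico 1 q, (1 : ℝ) / b ≤ 1 + Real.log q := by
  rcases Nat.lt_or_ge q 2 with h | h
  · have : Ico 1 q = ∅ := by
      rw [Finset.Ico_eq_empty_iff]
      omega
    rw [this, sum_empty]
    have : 0 ≤ Real.log q := Real.log_natCast_nonneg q
    linarith
  have h1 := harmonic_le_one_add_log (q - 1)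
  have h2 : ((harmonic (q - 1) : ℚ) : ℝ) = ∑ b ∈ Ico 1 q, (1 : ℝ) / b := by
    unfold harmonic
    push_cast
    rw [Finset.sum_Ico_eq_sum_range]
    refine Finset.sum_congr rfl fun i _ => ?_
    push_cast
    rw [one_div, add_comm]
  rw [h2] at h1
  refine h1.trans ?_
  have : Real.log ((q - 1 : ℕ) : ℝ) ≤ Real.log q := by
    apply Real.log_le_log
    · exact_mod_cast (by omega : 0 < q - 1)
    · exact_mod_cast (by omega : q - 1 ≤ q)
  linarith

lemma card_lt (q : ℕ) {y : ℝ} (hy : 0 ≤ y) :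
    (((Ico 1 q).filter (fun b : ℕ => (b : ℝ) < y)).card : ℝ) ≤ y := by
  have hsub : (Ico 1 q).filter (fun b : ℕ => (b : ℝ) < y) ⊆ Ioc 0 ⌊y⌋₊ := by
    intro b hb
    rw [mem_filter, mem_Ico] at hb
    rw [mem_Ioc]
    exact ⟨by omega, Nat.le_floor hb.2.le⟩
  have h1 := card_le_card hsub
  rw [Nat.card_Ioc, Nat.sub_zero] at h1
  calc (((Ico 1 q).filter (fun b : ℕ => (b : ℝ) < y)).card : ℝ) ≤ (⌊y⌋₊ : ℝ) := by exact_mod_cast h1
    _ ≤ y := Nat.floor_le hy

lemma reflect (q : ℕ) (g : ℕ → ℝ) : ∑ b ∈ Ico 1 q, g (q - b) = ∑ b ∈ Ico 1 q, g b := by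
  apply Finset.sum_nbij' (fun b => q - b) (fun b => q - b)
  · intro b hb; rw [mem_Ico] at hb ⊢; omega
  · intro b hb; rw [mem_Ico] at hb ⊢; omega
  · intro b hb; rw [mem_Ico] at hb; omega
  · intro b hb; rw [mem_Ico] at hb; omega
  · intro b hb; rfl

/-- The sum over the additive characters. -/
theorem sum_add {q : ℕ} (hq : 1 < q) {s : ℝ} (hs : 0 ≤ s) {L L' : ℕ} (hL : 1 ≤ L)
    (hL' : L' ≤ 2 * L + 1) :
    ∑ b ∈ Ico 1 q, ‖∑ n ∈ Ioc L L', nt n (-s) * ee (n * ((b : ℝ) / q))‖ ≤
      200 * q * Real.sqrt s + 4 * q * (1 + Real.log q) := by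
  have hpi := Real.pi_pos
  have hpi3 := Real.pi_gt_three
  have hq0 : (0 : ℝ) < q := by exact_mod_cast (by omega : 0 < q)
  have hL0 : (1 : ℝ) ≤ L := by exact_mod_cast hL
  have hlog : 0 ≤ Real.log q := Real.log_natCast_nonneg q
  rcases lt_or_ge (L : ℝ) s with hsL | hsL
  · have hs0 : 0 < s := by linarith
    have hss : 0 < Real.sqrt s := Real.sqrt_pos.2 hs0
    have h1 : ∀ b ∈ Ico 1 q, ‖∑ n ∈ Ioc L L', nt n (-s) * ee (n * ((b : ℝ) / q))‖ ≤
        200 * Real.sqrt s := by
      intro b _
      refine (add_second hs0 hL hL' _).trans ?_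
      have h2 : (L : ℝ) / Real.sqrt s ≤ Real.sqrt s := by
        rw [div_le_iff₀ hss, Real.mul_self_sqrt hs]
        linarith
      linarith
    refine (sum_le_sum h1).trans ?_
    rw [sum_const, Nat.card_Ico, nsmul_eq_mul]
    have h3 : ((q - 1 : ℕ) : ℝ) ≤ q := by exact_mod_cast (by omega : q - 1 ≤ q)
    have h4 : 0 ≤ 4 * (q : ℝ) * (1 + Real.log q) := by positivity
    have h5 : ((q - 1 : ℕ) : ℝ) * (200 * Real.sqrt s) ≤ q * (200 * Real.sqrt s) := by gcongr
    linarith
  · -- the pointwise bound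
    set y : ℝ := s * q / (Real.pi * L) with hy
    have hy0 : 0 ≤ y := by positivity
    set B : ℝ := 200 * (L / Real.sqrt s) with hB
    have hB0 : 0 ≤ B := by positivity
    set g : ℕ → ℝ := fun b => 2 * q * (1 / (b : ℝ)) + (if (b : ℝ) < y then B else 0) with hg
    have hg0 : ∀ b, 0 ≤ g b := by
      intro b
      simp only [hg]
      split_ifs <;> positivity
    have key : ∀ b ∈ Ico 1 q, ‖∑ n ∈ Ioc L L', nt n (-s) * ee (n * ((b : ℝ) / q))‖ ≤
        g b + g (q - b) := by
      intro b hb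
      rw [mem_Ico] at hb
      -- the least distance
      obtain ⟨m, hm1, hmb, hmq, hmg⟩ : ∃ m : ℕ, 1 ≤ m ∧ m ≤ b ∧ m ≤ q - b ∧ g m ≤ g b + g (q - b) := by
        rcases le_total b (q - b) with h | h
        · exact ⟨b, hb.1, le_rfl, h, by linarith [hg0 (q - b)]⟩
        · exact ⟨q - b, by omega, h, le_rfl, by linarith [hg0 b]⟩
      refine le_trans ?_ hmg
      have hm0 : (0 : ℝ) < m := by exact_mod_cast hm1
      by_cases hmy : (m : ℝ) < y
      · have hs0 : 0 < s := by
          rcases hs.eq_or_lt with h | h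
          · exfalso
            rw [hy, ← h, zero_mul, zero_div] at hmy
            linarith
          · exact h
        have hss : 0 < Real.sqrt s := Real.sqrt_pos.2 hs0
        have h2 : Real.sqrt s ≤ (L : ℝ) / Real.sqrt s := by
          rw [le_div_iff₀ hss, Real.mul_self_sqrt hs]
          exact hsL
        refine (add_second hs0 hL hL' _).trans ?_
        simp only [hg, if_pos hmy, hB]
        have h3 : 0 ≤ 2 * (q : ℝ) * (1 / (m : ℝ)) := by positivity
        linarith
      · have hδ : 0 < (m : ℝ) / q := by positivity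
        have hbq : (m : ℝ) / q ≤ b / q := by
          apply div_le_div_of_nonneg_right _ hq0.le
          exact_mod_cast hmb
        have hbq2 : (b : ℝ) / q ≤ 1 - m / q := by
          rw [← div_self hq0.ne', ← sub_div]
          apply div_le_div_of_nonneg_right _ hq0.le
          have : m + b ≤ q := by omega
          have : (m : ℝ) + b ≤ q := by exact_mod_cast this
          linarith
        have h1 := add_far (s := s) (δ := (m : ℝ) / q) hs hδ (L' := L') hL ((b : ℝ) / q) 0
          (by push_cast; linarith) (by push_cast; linarith) (by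
            push Not at hmy
            rw [hy, div_le_iff₀ (by positivity)] at hmy
            rw [mul_div_assoc', le_div_iff₀ hq0]
            linarith)
        refine h1.trans ?_
        simp only [hg, if_neg hmy]
        apply le_of_eq
        field_simp
        ring
    refine (sum_le_sum key).trans ?_
    rw [sum_add_distrib, reflect q g]
    have hsumg : ∑ b ∈ Ico 1 q, g b ≤ 2 * q * (1 + Real.log q) + y * B := by
      simp only [hg]
      rw [sum_add_distrib, ← mul_sum]
      apply add_le_add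
      · exact mul_le_mul_of_nonneg_left (harm q) (by positivity)
      · rw [← sum_filter, sum_const, nsmul_eq_mul]
        exact mul_le_mul_of_nonneg_right (card_lt q hy0) hB0
    have hyB : y * B ≤ 100 * q * Real.sqrt s := by
      rcases hs.eq_or_lt with h | h
      · rw [hy, ← h]
        simp
      · have hss : 0 < Real.sqrt s := Real.sqrt_pos.2 h
        have e1 : y * B = 200 / Real.pi * (q * Real.sqrt s) := by
          have hsq : Real.sqrt s ^ 2 = s := Real.sq_sqrt hs
          rw [hy, hB]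
          generalize Real.sqrt s = r at hss hsq
          subst hsq
          field_simp
        rw [e1]
        have h5 : 200 / Real.pi ≤ 100 := by
          rw [div_le_iff₀ hpi]
          linarith
        nlinarith [mul_le_mul_of_nonneg_right h5 (by positivity : 0 ≤ (q : ℝ) * Real.sqrt s)]
    linarith

/-- The kernel for a primitive character. -/
theorem kernel_prim {q : ℕ} [NeZero q] (hq : 1 < q) (χ : DirichletCharacter ℂ q)
    (hχ : χ.IsPrimitive) {L L' : ℕ} (hL : 1 ≤ L) (hL' : L' ≤ 2 * L + 1) (t : ℝ) :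
    ‖∑ n ∈ Ioc L L', χ (n : ZMod q) * nt n t‖ ≤
      200 * Real.sqrt q * Real.sqrt |t| + 4 * Real.sqrt q * (1 + Real.log q) := by
  have hq0 : (0 : ℝ) < q := by exact_mod_cast (by omega : 0 < q)
  have hsq : 0 < Real.sqrt q := Real.sqrt_pos.2 hq0
  -- the version with the inverse character
  have main : ∀ ψ : DirichletCharacter ℂ q, ψ.IsPrimitive → ∀ s : ℝ, 0 ≤ s →
      ‖∑ n ∈ Ioc L L', ψ⁻¹ (n : ZMod q) * nt n (-s)‖ ≤
        200 * Real.sqrt q * Real.sqrt s + 4 * Real.sqrt q * (1 + Real.log q) := by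
    intro ψ hψ s hs
    have h1 : (∑ n ∈ Ioc L L', ψ⁻¹ (n : ZMod q) * nt n (-s)) * gaussSum ψ ZMod.stdAddChar =
        ∑ b ∈ range q, ψ (b : ZMod q) * ∑ n ∈ Ioc L L', nt n (-s) * ee (n * ((b : ℝ) / q)) := by
      rw [sum_mul]
      simp_rw [mul_sum]
      rw [sum_comm]
      refine sum_congr rfl fun n _ => ?_
      have := expand ψ hψ n
      calc ψ⁻¹ (n : ZMod q) * nt n (-s) * gaussSum ψ ZMod.stdAddChar
          = nt n (-s) * (ψ⁻¹ (n : ZMod q) * gaussSum ψ ZMod.stdAddChar) := by ring
        _ = nt n (-s) * ∑ b ∈ range q, ψ (b : ZMod q) * ee (n * (b / q)) := by rw [this]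
        _ = _ := by
          rw [mul_sum]
          refine sum_congr rfl fun b _ => ?_
          ring
    have h2 : ‖∑ n ∈ Ioc L L', ψ⁻¹ (n : ZMod q) * nt n (-s)‖ * Real.sqrt q ≤
        200 * q * Real.sqrt s + 4 * q * (1 + Real.log q) := by
      rw [← norm_gaussSum ψ hψ, ← norm_mul, h1]
      refine le_trans ?_ (sum_add hq hs hL hL')
      rw [Finset.range_eq_Ico, ← Finset.sum_Ioo_add_eq_sum_Ico (by omega)]
      have h0 : ψ ((0 : ℕ) : ZMod q) = 0 := by
        rw [Nat.cast_zero]
        exact ψ.map_zero' (by omega)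
      rw [h0, zero_mul, add_zero]
      have e : Ioo 0 q = Ico 1 q := by
        ext b
        simp only [mem_Ioo, mem_Ico]
        omega
      rw [e]
      refine (norm_sum_le _ _).trans (sum_le_sum fun b _ => ?_)
      rw [norm_mul]
      calc ‖ψ (b : ZMod q)‖ * _ ≤ 1 * _ :=
            mul_le_mul_of_nonneg_right (ψ.norm_le_one _) (norm_nonneg _)
        _ = _ := one_mul _
    have h3 : (200 * Real.sqrt q * Real.sqrt s + 4 * Real.sqrt q * (1 + Real.log q)) * Real.sqrt q =
        200 * q * Real.sqrt s + 4 * q * (1 + Real.log q) := by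
      have : Real.sqrt q * Real.sqrt q = q := Real.mul_self_sqrt hq0.le
      calc _ = 200 * (Real.sqrt q * Real.sqrt q) * Real.sqrt s +
            4 * (Real.sqrt q * Real.sqrt q) * (1 + Real.log q) := by ring
        _ = _ := by rw [this]
    rw [← h3] at h2
    exact le_of_mul_le_mul_right h2 hsq
  have hconj : ∀ n : ℕ, (starRingEnd ℂ) (χ (n : ZMod q)) = χ⁻¹ (n : ZMod q) := by
    intro n
    exact MulChar.star_apply' χ _
  rcases le_total 0 t with ht | ht
  · rw [abs_of_nonneg ht]
    have h1 := main χ hχ t ht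
    have h2 : ‖∑ n ∈ Ioc L L', χ (n : ZMod q) * nt n t‖ =
        ‖∑ n ∈ Ioc L L', χ⁻¹ (n : ZMod q) * nt n (-t)‖ := by
      rw [← Complex.norm_conj (∑ n ∈ Ioc L L', χ (n : ZMod q) * nt n t), map_sum]
      congr 1
      refine sum_congr rfl fun n _ => ?_
      rw [map_mul, hconj, conj_nt]
    rw [h2]
    exact h1
  · rw [abs_of_nonpos ht]
    have hinv : (χ⁻¹).IsPrimitive := by
      rw [DirichletCharacter.isPrimitive_def, DirichletCharacter.conductor_inv]
      exact hχ
    have h1 := main χ⁻¹ hinv (-t) (by linarith)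
    rw [inv_inv, neg_neg] at h1
    exact h1

end Pool.Agent.Helper25.HM
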