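import Pool.Agent.Helper25.HM.K3

/-!
# HM-K4: the kernel for all characters modulo `q`
-/

set_option autoImplicit false

namespace Pool.Agent.Helper25.HM

open Finset
open Pool.Agent.Helper22.GC (ee norm_ee)

/-- The kernel for the trivial character modulo one. -/
theorem kernel_one {L L' : ℕ} (hL : 1 ≤ L) (hL' : L' ≤ 2 * L + 1) (t : ℝ) :
    ‖∑ n ∈ Ioc L L', nt n t‖ ≤ 60 * (L / (1 + |t|)) + 200 * Real.sqrt |t| := by
  have hpi := Real.pi_pos
  have hpi3 := Real.pi_gt_three
  have hpi4 := Real.pi_lt_d2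
  have hL0 : (1 : ℝ) ≤ L := by exact_mod_cast hL
  have triv : ‖∑ n ∈ Ioc L L', nt n t‖ ≤ L + 1 := by
    refine (norm_sum_le _ _).trans ?_
    simp_rw [norm_nt]
    rw [sum_const, Nat.card_Ioc, nsmul_eq_mul, mul_one]
    have : L' - L ≤ L + 1 := by omega
    exact_mod_cast this
  have main : ∀ s : ℝ, 1 ≤ s → ‖∑ n ∈ Ioc L L', nt n (-s)‖ ≤ 60 * (L / (1 + s)) + 200 * Real.sqrt s := by
    intro s hs
    have hs0 : 0 < s := by linarith
    have hss : 0 < Real.sqrt s := Real.sqrt_pos.2 hs0
    have h60 : 0 ≤ 60 * ((L : ℝ) / (1 + s)) := by positivity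
    have e2 : ∑ n ∈ Ioc L L', nt n (-s) = ∑ n ∈ Ioc L L', nt n (-s) * ee (n * (0 : ℝ)) := by
      refine sum_congr rfl fun n _ => ?_
      rw [mul_zero, Pool.Agent.Helper22.GC.ee_zero, mul_one]
    rcases lt_or_ge (L : ℝ) s with hsL | hsL
    · rw [e2]
      refine (add_second hs0 hL hL' _).trans ?_
      have h2 : (L : ℝ) / Real.sqrt s ≤ Real.sqrt s := by
        rw [div_le_iff₀ hss, Real.mul_self_sqrt hs0.le]
        linarith
      linarith
    · have e0 : Ioc L L' = Ico (L + 1) (L' + 1) := by
        ext n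
        simp only [mem_Ioc, mem_Ico]
        omega
      have e1 : ∑ n ∈ Ioc L L', nt n (-s) * ee (n * (0 : ℝ)) =
          ∑ n ∈ Ico (L + 1) (L' + 1), ee (ph s 0 n) := by
        rw [e0]
        exact sum_congr rfl fun n _ => (ee_ph s 0 n).symm
      rw [e2, e1]
      set θ : ℝ := s / (2 * Real.pi * (2 * L + 2)) with hθ
      have hθ0 : 0 < θ := by positivity
      have key := Pool.Agent.Helper22.GC.kusmin_landau (f := ph s 0) (a := L + 1) (b := L' + 1)
        (θ := θ) (m := -1) hθ0
        (fun n hn _ => by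
          have := ph_step hs0.le 0 (n := n) (by omega)
          have h4 : 0 ≤ s / (2 * Real.pi) * (1 / ((n : ℝ) + 1) ^ 2) := by positivity
          linarith)
        (fun n hn _ => by
          have hn1 : 1 ≤ n := by omega
          have hn0 : (0 : ℝ) < n := by exact_mod_cast hn1
          have hnL : (L : ℝ) ≤ n := by exact_mod_cast (by omega : L ≤ n)
          rw [ph_diff s 0 hn1]
          have hb := log_bounds hn1
          have h4 : s / (2 * Real.pi) * Real.log (1 + 1 / n) ≤ s / (2 * Real.pi) * (1 / L) := by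
            apply mul_le_mul_of_nonneg_left _ (by positivity)
            exact hb.2.trans (one_div_le_one_div_of_le (by linarith) hnL)
          have h5 : s / (2 * Real.pi) * (1 / L) ≤ 1 / (2 * Real.pi) := by
            rw [div_mul_div_comm, mul_one, div_le_div_iff₀ (by positivity) (by positivity)]
            nlinarith
          have h6 : 1 / (2 * Real.pi) ≤ 1 / 6 := by
            apply one_div_le_one_div_of_le (by norm_num)
            linarith
          have h7 : θ ≤ 1 / 6 := by
            rw [hθ, div_le_div_iff₀ (by positivity) (by norm_num)]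
            nlinarith
          push_cast
          linarith)
        (fun n hn hn2 => by
          have hn1 : 1 ≤ n := by omega
          have hn0 : (0 : ℝ) < n := by exact_mod_cast hn1
          have hnL : (n : ℝ) + 1 ≤ 2 * L + 2 := by
            have : n + 1 ≤ 2 * L + 2 := by omega
            exact_mod_cast this
          rw [ph_diff s 0 hn1]
          have h4 : 1 / ((n : ℝ) + 1) ≤ Real.log (1 + 1 / n) := by
            have h5 := Real.one_sub_inv_le_log_of_pos (x := 1 + 1 / (n : ℝ)) (by positivity)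
            refine le_trans (le_of_eq ?_) h5
            field_simp
            ring
          have h6 : s / (2 * Real.pi) * (1 / (2 * L + 2)) ≤
              s / (2 * Real.pi) * Real.log (1 + 1 / n) := by
            apply mul_le_mul_of_nonneg_left _ (by positivity)
            refine le_trans ?_ h4
            exact one_div_le_one_div_of_le (by positivity) hnL
          have h7 : s / (2 * Real.pi) * (1 / (2 * L + 2)) = θ := by
            rw [hθ]
            field_simp
          push_cast
          linarith)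
      refine key.trans ?_
      have h8 : 1 / θ ≤ 60 * (L / (1 + s)) := by
        rw [hθ, one_div_div, div_le_iff₀ hs0, mul_div_assoc', div_mul_eq_mul_div, le_div_iff₀ (by linarith)]
        nlinarith [mul_pos hs0 hpi, mul_le_mul_of_nonneg_left hL0 hs0.le, mul_nonneg hs0.le (by linarith : (0 : ℝ) ≤ L)]
      have h9 : 0 ≤ 200 * Real.sqrt s := by positivity
      linarith
  rcases lt_or_ge |t| 1 with h1 | h1
  · refine triv.trans ?_
    have h2 : 0 ≤ 200 * Real.sqrt |t| := by positivity
    have h3 : (L : ℝ) + 1 ≤ 60 * (L / (1 + |t|)) := by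
      rw [mul_div_assoc', le_div_iff₀ (by positivity)]
      nlinarith [abs_nonneg t]
    linarith
  · rcases le_total 0 t with ht | ht
    · rw [abs_of_nonneg ht] at h1 ⊢
      have h2 := main t h1
      have h3 : ‖∑ n ∈ Ioc L L', nt n t‖ = ‖∑ n ∈ Ioc L L', nt n (-t)‖ := by
        rw [← Complex.norm_conj (∑ n ∈ Ioc L L', nt n t), map_sum]
        simp_rw [conj_nt]
      rw [h3]
      exact h2
    · rw [abs_of_nonpos ht] at h1 ⊢
      have h2 := main (-t) h1
      rwa [neg_neg] at h2

lemma sum_moebius_gcd (g : ℕ) (hg : 0 < g) :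
    ∑ d ∈ g.divisors, (ArithmeticFunction.moebius d : ℤ) = if g = 1 then 1 else 0 := by
  have h := congrArg (fun f : ArithmeticFunction ℤ => f g) ArithmeticFunction.moebius_mul_coe_zeta
  simp only [ArithmeticFunction.coe_mul_zeta_apply, ArithmeticFunction.one_apply] at h
  exact h

lemma psi_eq {q : ℕ} [NeZero q] (ψ : DirichletCharacter ℂ q) (n : ℕ) :
    ψ (n : ZMod q) = ∑ d ∈ q.divisors, (if d ∣ n then
      (ArithmeticFunction.moebius d : ℂ) * ψ.primitiveCharacter (n : ZMod ψ.conductor) else 0) := by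
  have hq : q ≠ 0 := NeZero.ne q
  have h1 : ∑ d ∈ q.divisors, (if d ∣ n then
      (ArithmeticFunction.moebius d : ℂ) * ψ.primitiveCharacter (n : ZMod ψ.conductor) else 0) =
      ((∑ d ∈ (Nat.gcd n q).divisors, (ArithmeticFunction.moebius d : ℤ) : ℤ) : ℂ) *
        ψ.primitiveCharacter (n : ZMod ψ.conductor) := by
    rw [← sum_filter, ← sum_mul]
    congr 1
    push_cast
    apply sum_congr _ (fun _ _ => rfl)
    ext d
    simp only [mem_filter, Nat.mem_divisors, Nat.dvd_gcd_iff]
    constructor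
    · rintro ⟨⟨h1, _⟩, h3⟩
      exact ⟨⟨h3, h1⟩, Nat.gcd_ne_zero_right hq⟩
    · rintro ⟨⟨h1, h2⟩, _⟩
      exact ⟨⟨h2, hq⟩, h1⟩
  rw [h1, sum_moebius_gcd _ (Nat.gcd_pos_of_pos_right _ (Nat.pos_of_ne_zero hq))]
  by_cases hg : Nat.gcd n q = 1
  · rw [if_pos hg]
    have hc : IsCoprime (n : ℤ) (q : ℤ) := Nat.isCoprime_iff_coprime.2 hg
    have := ψ.primitiveCharacter_apply_of_isCoprime hc
    push_cast at this ⊢
    rw [one_mul, this]
  · rw [if_neg hg]
    push_cast
    rw [zero_mul]
    apply MulChar.map_nonunit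
    rw [ZMod.isUnit_iff_coprime]
    exact hg

lemma sum_dvd {L L' d : ℕ} (hd : 0 < d) (G : ℕ → ℂ) :
    ∑ n ∈ (Ioc L L').filter (fun n => d ∣ n), G n = ∑ m ∈ Ioc (L / d) (L' / d), G (d * m) := by
  symm
  apply Finset.sum_nbij' (fun m => d * m) (fun n => n / d)
  · intro m hm
    rw [mem_Ioc] at hm
    rw [mem_filter, mem_Ioc]
    refine ⟨⟨?_, ?_⟩, dvd_mul_right _ _⟩
    · have := (Nat.div_lt_iff_lt_mul hd).1 hm.1
      linarith [Nat.mul_comm m d]
    · have := (Nat.le_div_iff_mul_le hd).1 hm.2
      linarith [Nat.mul_comm m d]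
  · intro n hn
    rw [mem_filter, mem_Ioc] at hn
    obtain ⟨⟨h1, h2⟩, ⟨m, rfl⟩⟩ := hn
    rw [Nat.mul_div_cancel_left m hd, mem_Ioc]
    constructor
    · rw [Nat.div_lt_iff_lt_mul hd]
      linarith [Nat.mul_comm m d]
    · rw [Nat.le_div_iff_mul_le hd]
      linarith [Nat.mul_comm m d]
  · intro m _
    exact Nat.mul_div_cancel_left m hd
  · intro n hn
    rw [mem_filter] at hn
    exact Nat.mul_div_cancel' hn.2
  · intro m _; rfl

/-- The kernel for all characters. -/
theorem kernel {q : ℕ} [NeZero q] (ψ : DirichletCharacter ℂ q) {L L' : ℕ}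
    (hL' : L' ≤ 2 * L + 1) (t : ℝ) :
    ‖∑ n ∈ Ioc L L', ψ (n : ZMod q) * nt n t‖ ≤
      q.divisors.card * (200 * Real.sqrt q * Real.sqrt |t| + 4 * Real.sqrt q * (1 + Real.log q) +
        (if ψ = 1 then 60 * (L / (1 + |t|)) else 0)) := by
  classical
  have hq : q ≠ 0 := NeZero.ne q
  have hq1 : (1 : ℝ) ≤ q := by exact_mod_cast Nat.one_le_iff_ne_zero.2 hq
  have hc0 : NeZero ψ.conductor := ⟨ψ.conductor_ne_zero⟩
  have hcq : ψ.conductor ≤ q := Nat.le_of_dvd (Nat.pos_of_ne_zero hq) ψ.conductor_dvd_level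
  have hcqR : (ψ.conductor : ℝ) ≤ q := by exact_mod_cast hcq
  have hlogq : 0 ≤ Real.log q := Real.log_natCast_nonneg q
  set ψ' := ψ.primitiveCharacter with hψ'
  -- the inner sums
  have hin : ∀ d ∈ q.divisors, ‖∑ m ∈ Ioc (L / d) (L' / d), ψ' (m : ZMod ψ.conductor) * nt m t‖ ≤
      200 * Real.sqrt q * Real.sqrt |t| + 4 * Real.sqrt q * (1 + Real.log q) +
        (if ψ = 1 then 60 * (L / (1 + |t|)) else 0) := by
    intro d hd
    have hd0 : 0 < d := Nat.pos_of_mem_divisors hd
    have hif : 0 ≤ (if ψ = 1 then 60 * ((L : ℝ) / (1 + |t|)) else 0) := by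
      split_ifs <;> positivity
    have hsq1 : 1 ≤ Real.sqrt q := Real.one_le_sqrt.2 hq1
    have h200 : 0 ≤ 200 * Real.sqrt q * Real.sqrt |t| := by positivity
    have h4 : 4 ≤ 4 * Real.sqrt q * (1 + Real.log q) := by nlinarith
    have hLd' : L' / d ≤ 2 * (L / d) + 1 := by
      rw [← Nat.lt_succ_iff, Nat.div_lt_iff_lt_mul hd0]
      have := Nat.div_add_mod L d
      have := Nat.mod_lt L hd0
      have e : (2 * (L / d) + 1).succ * d = 2 * (d * (L / d)) + 2 * d := by
        rw [Nat.succ_eq_add_one]; ring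
      omega
    rcases Nat.eq_zero_or_pos (L / d) with h0 | h0
    · have h1 : ‖∑ m ∈ Ioc (L / d) (L' / d), ψ' (m : ZMod ψ.conductor) * nt m t‖ ≤ 1 := by
        refine (norm_sum_le _ _).trans ?_
        have : ∀ m ∈ Ioc (L / d) (L' / d), ‖ψ' (m : ZMod ψ.conductor) * nt m t‖ ≤ 1 := by
          intro m _
          rw [norm_mul, norm_nt, mul_one]
          exact ψ'.norm_le_one _
        refine (sum_le_sum this).trans ?_
        rw [sum_const, Nat.card_Ioc, nsmul_eq_mul, mul_one]
        have : L' / d - L / d ≤ 1 := by omega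
        exact_mod_cast this
      linarith
    · by_cases h1 : ψ = 1
      · rw [if_pos h1]
        have hc1 : ψ.conductor = 1 := (DirichletCharacter.eq_one_iff_conductor_eq_one).1 h1
        have e1 : ∀ m : ℕ, ψ' (m : ZMod ψ.conductor) = 1 := by
          intro m
          have : ψ' = 1 := by
            rw [hψ']
            apply DirichletCharacter.level_one'
            exact hc1
          rw [this]
          apply MulChar.one_apply
          have : Subsingleton (ZMod ψ.conductor) := by
            rw [hc1]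
            infer_instance
          exact isUnit_of_subsingleton _
        simp_rw [e1, one_mul]
        refine (kernel_one h0 hLd' t).trans ?_
        have h5 : 60 * (((L / d : ℕ) : ℝ) / (1 + |t|)) ≤ 60 * (L / (1 + |t|)) := by
          have : ((L / d : ℕ) : ℝ) ≤ L := by exact_mod_cast Nat.div_le_self L d
          gcongr
        have h6 : 200 * Real.sqrt |t| ≤ 200 * Real.sqrt q * Real.sqrt |t| := by
          have := Real.sqrt_nonneg |t|
          nlinarith
        linarith
      · rw [if_neg h1, add_zero]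
        have hc1 : 1 < ψ.conductor := by
          have h2 : ψ.conductor ≠ 1 := fun h => h1 ((DirichletCharacter.eq_one_iff_conductor_eq_one).2 h)
          have h3 := ψ.conductor_ne_zero
          omega
        refine (kernel_prim hc1 ψ' ψ.primitiveCharacter_isPrimitive h0 hLd' t).trans ?_
        have h5 : Real.sqrt ψ.conductor ≤ Real.sqrt q := Real.sqrt_le_sqrt hcqR
        have h6 : Real.log ψ.conductor ≤ Real.log q := by
          apply Real.log_le_log _ hcqR
          exact_mod_cast (by omega : 0 < ψ.conductor)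
        have h7 : 0 ≤ Real.log ψ.conductor := Real.log_natCast_nonneg _
        gcongr
  have e1 : ∑ n ∈ Ioc L L', ψ (n : ZMod q) * nt n t = ∑ d ∈ q.divisors,
      (ArithmeticFunction.moebius d : ℂ) * (ψ' (d : ZMod ψ.conductor) * nt d t) *
        ∑ m ∈ Ioc (L / d) (L' / d), ψ' (m : ZMod ψ.conductor) * nt m t := by
    simp_rw [psi_eq ψ, sum_mul]
    rw [sum_comm]
    refine sum_congr rfl fun d hd => ?_
    have hd0 : 0 < d := Nat.pos_of_mem_divisors hd
    simp_rw [ite_mul, zero_mul]
    rw [← sum_filter, sum_dvd hd0 (fun n => (ArithmeticFunction.moebius d : ℂ) *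
      ψ' (n : ZMod ψ.conductor) * nt n t), mul_sum]
    refine sum_congr rfl fun m hm => ?_
    have hm0 : m ≠ 0 := (lt_of_le_of_lt (Nat.zero_le _) (mem_Ioc.1 hm).1).ne'
    rw [nt_mul hd0.ne' hm0]
    push_cast
    rw [map_mul]
    ring
  rw [e1]
  refine (norm_sum_le _ _).trans ?_
  rw [← nsmul_eq_mul, ← sum_const]
  refine sum_le_sum fun d hd => ?_
  rw [norm_mul, norm_mul, norm_mul, norm_nt, mul_one]
  have h1 : ‖(ArithmeticFunction.moebius d : ℂ)‖ ≤ 1 := by
    rw [Complex.norm_intCast]
    exact_mod_cast ArithmeticFunction.abs_moebius_le_one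
  have h2 : ‖ψ' (d : ZMod ψ.conductor)‖ ≤ 1 := ψ'.norm_le_one _
  calc ‖(ArithmeticFunction.moebius d : ℂ)‖ * ‖ψ' (d : ZMod ψ.conductor)‖ * _
      ≤ 1 * 1 * _ := by
        apply mul_le_mul_of_nonneg_right _ (norm_nonneg _)
        exact mul_le_mul h1 h2 (norm_nonneg _) zero_le_one
    _ ≤ _ := by
      rw [one_mul, one_mul]
      exact hin d hd

end Pool.Agent.Helper25.HM
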