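import Pool.Agent.Helper25.HM.K4

/-!
# HM-K5: the inequality of Halász and Montgomery
-/

set_option autoImplicit false

namespace Pool.Agent.Helper25.HM

open Finset

/-- The polynomial. -/
noncomputable def D {q : ℕ} (L L' : ℕ) (b : ℕ → ℂ) (p : DirichletCharacter ℂ q × ℤ) : ℂ :=
  ∑ n ∈ Ioc L L', b n * (p.1 (n : ZMod q) * nt n p.2)

lemma sum_inv_abs (H : ℕ) : ∑ j ∈ Icc (-(H : ℤ)) H, (1 : ℝ) / (1 + |(j : ℝ)|) ≤
    3 + 2 * Real.log (H + 1) := by
  induction H with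
  | zero => simp
  | succ H ih =>
    have e1 : Icc (-((H + 1 : ℕ) : ℤ)) ((H + 1 : ℕ) : ℤ) =
        insert (-((H : ℤ) + 1)) (insert ((H : ℤ) + 1) (Icc (-(H : ℤ)) H)) := by
      ext j
      simp only [mem_insert, mem_Icc]
      push_cast
      omega
    rw [e1, sum_insert, sum_insert]
    · have h1 : |((-((H : ℤ) + 1) : ℤ) : ℝ)| = H + 1 := by
        push_cast
        rw [abs_of_nonpos (by linarith [(Nat.cast_nonneg H : (0 : ℝ) ≤ H)])]
        ring
      have h2 : |(((H : ℤ) + 1 : ℤ) : ℝ)| = H + 1 := by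
        push_cast
        rw [abs_of_nonneg (by positivity)]
      rw [h1, h2]
      have h3 : 1 / (1 + ((H : ℝ) + 1)) ≤ Real.log (((H + 1 : ℕ) : ℝ) + 1) - Real.log (H + 1) := by
        push_cast
        rw [← Real.log_div (by positivity) (by positivity)]
        have h5 := Real.one_sub_inv_le_log_of_pos (x := ((H : ℝ) + 1 + 1) / (H + 1)) (by positivity)
        refine le_trans (le_of_eq ?_) h5
        have : (0 : ℝ) ≤ H := Nat.cast_nonneg H
        field_simp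
        ring
      linarith
    · simp only [mem_Icc]; omega
    · simp only [mem_insert, mem_Icc]; omega

theorem hm {q : ℕ} [NeZero q] (W : Finset (DirichletCharacter ℂ q × ℤ)) (H : ℕ)
    (hW : ∀ p ∈ W, ∀ p' ∈ W, |p.2 - p'.2| ≤ H) {L L' : ℕ} (hL' : L' ≤ 2 * L + 1)
    (b : ℕ → ℂ) {B : ℝ} (hb : ∀ n ∈ Ioc L L', ‖b n‖ ≤ B) {V : ℝ} (hV : 0 ≤ V)
    (hVW : ∀ p ∈ W, V ≤ ‖D L L' b p‖) :
    (W.card : ℝ) ^ 2 * V ^ 2 ≤ B ^ 2 * (L + 1) * (q.divisors.card * ((W.card : ℝ) ^ 2 *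
      (200 * Real.sqrt q * Real.sqrt H + 4 * Real.sqrt q * (1 + Real.log q)) +
        W.card * (60 * L * (3 + 2 * Real.log (H + 1))))) := by
  classical
  have hlogq : 0 ≤ Real.log q := Real.log_natCast_nonneg q
  set τ : ℝ := (q.divisors.card : ℝ) with hτ
  set X : ℝ := 200 * Real.sqrt q * Real.sqrt H + 4 * Real.sqrt q * (1 + Real.log q) with hX
  -- unimodular coefficients
  have hc : ∀ z : ℂ, ∃ c : ℂ, ‖c‖ = 1 ∧ c * z = ‖z‖ := by
    intro z
    by_cases hz : z = 0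
    · exact ⟨1, norm_one, by simp [hz]⟩
    · have hn : (‖z‖ : ℂ) ≠ 0 := by exact_mod_cast norm_ne_zero_iff.2 hz
      refine ⟨(starRingEnd ℂ) z / ‖z‖, ?_, ?_⟩
      · rw [norm_div, Complex.norm_conj, Complex.norm_real, norm_norm, div_self (norm_ne_zero_iff.2 hz)]
      · rw [div_mul_eq_mul_div, Complex.conj_mul']
        field_simp
  choose c hc1 hc2 using hc
  set cc : DirichletCharacter ℂ q × ℤ → ℂ := fun p => c (D L L' b p) with hcc
  set P : ℕ → ℂ := fun n => ∑ p ∈ W, cc p * (p.1 (n : ZMod q) * nt n p.2) with hP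
  have h1 : (W.card : ℝ) * V ≤ ‖∑ n ∈ Ioc L L', b n * P n‖ := by
    have e1 : ∑ n ∈ Ioc L L', b n * P n = ((∑ p ∈ W, ‖D L L' b p‖ : ℝ) : ℂ) := by
      push_cast
      simp_rw [hP, mul_sum]
      rw [sum_comm]
      refine sum_congr rfl fun p _ => ?_
      rw [← hc2, hcc]
      simp only [D, mul_sum]
      refine sum_congr rfl fun n _ => ?_
      ring
    rw [e1, Complex.norm_real, Real.norm_eq_abs, abs_of_nonneg (sum_nonneg fun _ _ => norm_nonneg _)]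
    rw [← nsmul_eq_mul]
    exact card_nsmul_le_sum W _ V hVW
  have hB2 : ∑ n ∈ Ioc L L', ‖b n‖ ^ 2 ≤ B ^ 2 * (L + 1) := by
    have : ∀ n ∈ Ioc L L', ‖b n‖ ^ 2 ≤ B ^ 2 := fun n hn =>
      pow_le_pow_left₀ (norm_nonneg _) (hb n hn) 2
    refine (sum_le_sum this).trans ?_
    rw [sum_const, Nat.card_Ioc, nsmul_eq_mul, mul_comm]
    apply mul_le_mul_of_nonneg_left _ (sq_nonneg B)
    have : L' - L ≤ L + 1 := by omega
    exact_mod_cast this
  have h2 : ((W.card : ℝ) * V) ^ 2 ≤ B ^ 2 * (L + 1) * ∑ n ∈ Ioc L L', ‖P n‖ ^ 2 := by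
    have h3 : ‖∑ n ∈ Ioc L L', b n * P n‖ ≤ ∑ n ∈ Ioc L L', ‖b n‖ * ‖P n‖ := by
      refine (norm_sum_le _ _).trans (le_of_eq ?_)
      exact sum_congr rfl fun n _ => norm_mul _ _
    have h4 := sum_mul_sq_le_sq_mul_sq (Ioc L L') (fun n => ‖b n‖) (fun n => ‖P n‖)
    calc ((W.card : ℝ) * V) ^ 2 ≤ (∑ n ∈ Ioc L L', ‖b n‖ * ‖P n‖) ^ 2 :=
          pow_le_pow_left₀ (by positivity) (h1.trans h3) 2
      _ ≤ _ := h4.trans (mul_le_mul_of_nonneg_right hB2 (sum_nonneg fun _ _ => sq_nonneg _))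
  have h5 : ∑ n ∈ Ioc L L', ‖P n‖ ^ 2 ≤ ∑ p ∈ W, ∑ p' ∈ W,
      ‖∑ n ∈ Ioc L L', (p.1 * p'.1⁻¹) (n : ZMod q) * nt n (((p.2 - p'.2 : ℤ) : ℝ))‖ := by
    have e1 : ((∑ n ∈ Ioc L L', ‖P n‖ ^ 2 : ℝ) : ℂ) = ∑ p ∈ W, ∑ p' ∈ W,
        (cc p * (starRingEnd ℂ) (cc p')) *
          ∑ n ∈ Ioc L L', (p.1 * p'.1⁻¹) (n : ZMod q) * nt n (((p.2 - p'.2 : ℤ) : ℝ)) := by
      push_cast
      simp_rw [mul_sum]
      have : ∀ n ∈ Ioc L L', (‖P n‖ : ℂ) ^ 2 = ∑ p ∈ W, ∑ p' ∈ W,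
          (cc p * (starRingEnd ℂ) (cc p')) * ((p.1 * p'.1⁻¹) (n : ZMod q) *
            nt n (((p.2 : ℝ) - (p'.2 : ℝ)))) := by
        intro n _
        rw [← Complex.mul_conj', hP]
        simp only
        rw [map_sum, sum_mul_sum]
        refine sum_congr rfl fun p _ => sum_congr rfl fun p' _ => ?_
        rw [map_mul, map_mul, conj_nt, sub_eq_add_neg, nt_add, MulChar.mul_apply]
        have : (starRingEnd ℂ) (p'.1 (n : ZMod q)) = p'.1⁻¹ (n : ZMod q) := MulChar.star_apply' _ _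
        rw [this]
        ring
      rw [sum_congr rfl this, sum_comm]
      refine sum_congr rfl fun p _ => ?_
      rw [sum_comm]
    have h6 : ∑ n ∈ Ioc L L', ‖P n‖ ^ 2 = ‖((∑ n ∈ Ioc L L', ‖P n‖ ^ 2 : ℝ) : ℂ)‖ := by
      rw [Complex.norm_real, Real.norm_eq_abs, abs_of_nonneg (sum_nonneg fun _ _ => sq_nonneg _)]
    rw [h6, e1]
    refine (norm_sum_le _ _).trans (sum_le_sum fun p _ => ?_)
    refine (norm_sum_le _ _).trans (sum_le_sum fun p' _ => ?_)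
    rw [norm_mul, norm_mul, Complex.norm_conj]
    simp only [hcc, hc1]
    rw [one_mul, one_mul]
  have h7 : ∀ p ∈ W, ∑ p' ∈ W,
      ‖∑ n ∈ Ioc L L', (p.1 * p'.1⁻¹) (n : ZMod q) * nt n (((p.2 - p'.2 : ℤ) : ℝ))‖ ≤
      τ * (W.card * X + 60 * L * (3 + 2 * Real.log (H + 1))) := by
    intro p hp
    have h8 : ∀ p' ∈ W,
        ‖∑ n ∈ Ioc L L', (p.1 * p'.1⁻¹) (n : ZMod q) * nt n (((p.2 - p'.2 : ℤ) : ℝ))‖ ≤
        τ * (X + (if p.1 = p'.1 then 60 * (L * (1 / (1 + |((p.2 - p'.2 : ℤ) : ℝ)|))) else 0)) := by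
      intro p' hp'
      refine (kernel (p.1 * p'.1⁻¹) hL' _).trans ?_
      have h9 : |((p.2 - p'.2 : ℤ) : ℝ)| ≤ H := by
        have := hW p hp p' hp'
        exact_mod_cast this
      have h10 : Real.sqrt |((p.2 - p'.2 : ℤ) : ℝ)| ≤ Real.sqrt H := Real.sqrt_le_sqrt h9
      have h11 : (if p.1 * p'.1⁻¹ = 1 then 60 * ((L : ℝ) / (1 + |((p.2 - p'.2 : ℤ) : ℝ)|)) else 0) =
          (if p.1 = p'.1 then 60 * (L * (1 / (1 + |((p.2 - p'.2 : ℤ) : ℝ)|))) else 0) := by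
        have : (p.1 * p'.1⁻¹ = 1) ↔ p.1 = p'.1 := mul_inv_eq_one
        simp only [this, mul_one_div]
      rw [h11, hX]
      gcongr
    refine (sum_le_sum h8).trans ?_
    rw [← mul_sum, sum_add_distrib, sum_const, nsmul_eq_mul]
    apply mul_le_mul_of_nonneg_left _ (by positivity)
    have h12 : ∑ p' ∈ W, (if p.1 = p'.1 then
        60 * (L * (1 / (1 + |((p.2 - p'.2 : ℤ) : ℝ)|))) else 0) ≤
        60 * L * (3 + 2 * Real.log (H + 1)) := by
      rw [← sum_filter]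
      have h13 : ∑ p' ∈ W.filter (fun p' => p.1 = p'.1),
          60 * (L * (1 / (1 + |((p.2 - p'.2 : ℤ) : ℝ)|))) ≤
          ∑ j ∈ Icc (-(H : ℤ)) H, 60 * ((L : ℝ) * (1 / (1 + |(j : ℝ)|))) := by
        have hinj : Set.InjOn (fun p' : DirichletCharacter ℂ q × ℤ => p.2 - p'.2)
            (W.filter (fun p' => p.1 = p'.1)) := by
          intro x hx y hy hxy
          simp only [coe_filter, Set.mem_setOf_eq] at hx hy
          have : x.2 = y.2 := by
            simp only at hxy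
            omega
          exact Prod.ext (hx.2.symm.trans hy.2) this
        rw [← sum_image (f := fun j : ℤ => 60 * ((L : ℝ) * (1 / (1 + |(j : ℝ)|)))) hinj]
        apply sum_le_sum_of_subset_of_nonneg
        · intro j hj
          rw [mem_image] at hj
          obtain ⟨p', hp', rfl⟩ := hj
          rw [mem_filter] at hp'
          have := hW p hp p' hp'.1
          rw [abs_le] at this
          exact mem_Icc.2 this
        · intro j _ _
          positivity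
      refine h13.trans ?_
      simp_rw [← mul_assoc]
      rw [← mul_sum]
      exact mul_le_mul_of_nonneg_left (sum_inv_abs H) (by positivity)
    linarith
  have h14 : ∑ n ∈ Ioc L L', ‖P n‖ ^ 2 ≤
      W.card * (τ * (W.card * X + 60 * L * (3 + 2 * Real.log (H + 1)))) := by
    refine h5.trans ((sum_le_sum h7).trans (le_of_eq ?_))
    rw [sum_const, nsmul_eq_mul]
  calc (W.card : ℝ) ^ 2 * V ^ 2 = ((W.card : ℝ) * V) ^ 2 := by ring
    _ ≤ B ^ 2 * (L + 1) * ∑ n ∈ Ioc L L', ‖P n‖ ^ 2 := h2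
    _ ≤ B ^ 2 * (L + 1) * (W.card * (τ * (W.card * X + 60 * L * (3 + 2 * Real.log (H + 1))))) := by
      gcongr
    _ = _ := by ring

end Pool.Agent.Helper25.HM
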