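import Pool.Agent.Helper25.HM.K5

/-!
# HM-K6: Huxley's subdivision
-/

set_option autoImplicit false

namespace Pool.Agent.Helper25.HM

open Finset

theorem huxley {q : ℕ} [NeZero q] (W : Finset (DirichletCharacter ℂ q × ℤ)) (H : ℕ) (hH : 1 ≤ H)
    (T : ℕ) (hT : ∀ p ∈ W, |p.2| ≤ T) {L L' : ℕ} (hL' : L' ≤ 2 * L + 1)
    (b : ℕ → ℂ) {B : ℝ} (hb : ∀ n ∈ Ioc L L', ‖b n‖ ≤ B) {V : ℝ} (hV : 0 ≤ V)
    (hVW : ∀ p ∈ W, V ≤ ‖D L L' b p‖)
    (hcond : 2 * (B ^ 2 * (L + 1) * (q.divisors.card *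
      (200 * Real.sqrt q * Real.sqrt H + 4 * Real.sqrt q * (1 + Real.log q)))) ≤ V ^ 2) :
    (W.card : ℝ) * V ^ 2 ≤ (2 * T / H + 1) * (2 * (B ^ 2 * (L + 1) * (q.divisors.card *
      (60 * L * (3 + 2 * Real.log (H + 1)))))) := by
  classical
  set τ : ℝ := (q.divisors.card : ℝ) with hτ
  set X : ℝ := 200 * Real.sqrt q * Real.sqrt H + 4 * Real.sqrt q * (1 + Real.log q) with hX
  set Y : ℝ := 60 * L * (3 + 2 * Real.log (H + 1)) with hY
  have hlogH : 0 ≤ Real.log ((H : ℝ) + 1) :=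
    Real.log_nonneg (by linarith [(Nat.cast_nonneg H : (0 : ℝ) ≤ H)])
  have hY0 : 0 ≤ Y := by positivity
  have hR : 0 ≤ 2 * (B ^ 2 * (L + 1) * (τ * Y)) := by positivity
  have hfib : ∀ U : Finset (DirichletCharacter ℂ q × ℤ), U ⊆ W →
      (∀ p ∈ U, ∀ p' ∈ U, |p.2 - p'.2| ≤ H) →
      (U.card : ℝ) * V ^ 2 ≤ 2 * (B ^ 2 * (L + 1) * (τ * Y)) := by
    intro U hU hUH
    have h1 := hm U H hUH hL' b hb hV (fun p hp => hVW p (hU hp))
    rw [← hτ, ← hX, ← hY] at h1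
    rcases Nat.eq_zero_or_pos U.card with h0 | h0
    · rw [h0]
      simpa using hR
    · have h2 : (0 : ℝ) < U.card := by exact_mod_cast h0
      have h3 : (U.card : ℝ) * (U.card * V ^ 2) ≤ U.card * (2 * (B ^ 2 * (L + 1) * (τ * Y))) := by
        nlinarith [mul_le_mul_of_nonneg_left hcond (sq_nonneg (U.card : ℝ))]
      exact le_of_mul_le_mul_left h3 h2
  set J : ℕ := 2 * T / H + 1 with hJ
  have hmap : ∀ p ∈ W, ((p.2 + T).toNat / H) ∈ range J := by
    intro p hp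
    have h1 := hT p hp
    rw [abs_le] at h1
    rw [mem_range, hJ, Nat.lt_succ_iff]
    apply Nat.div_le_div_right
    omega
  have hcard := card_eq_sum_card_fiberwise (f := fun p : DirichletCharacter ℂ q × ℤ =>
    (p.2 + T).toNat / H) (s := W) (t := range J) hmap
  have h1 : (W.card : ℝ) * V ^ 2 ≤ ∑ _j ∈ range J, 2 * (B ^ 2 * (L + 1) * (τ * Y)) := by
    rw [hcard]
    push_cast
    rw [sum_mul]
    refine sum_le_sum fun j _ => ?_
    apply hfib _ (filter_subset _ _)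
    intro p hp p' hp'
    rw [mem_filter] at hp hp'
    have h2 := hT p hp.1
    have h3 := hT p' hp'.1
    rw [abs_le] at h2 h3
    have e1 := Nat.div_add_mod (p.2 + T).toNat H
    have e2 := Nat.div_add_mod (p'.2 + T).toNat H
    have m1 := Nat.mod_lt (p.2 + T).toNat (by omega : H > 0)
    have m2 := Nat.mod_lt (p'.2 + T).toNat (by omega : H > 0)
    rw [hp.2] at e1
    rw [hp'.2] at e2
    rw [abs_le]
    omega
  refine h1.trans ?_
  rw [sum_const, card_range, nsmul_eq_mul]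
  apply mul_le_mul_of_nonneg_right _ hR
  rw [hJ]
  push_cast
  have h4 : ((2 * T / H : ℕ) : ℝ) ≤ 2 * T / H := by
    have := Nat.cast_div_le (α := ℝ) (m := 2 * T) (n := H)
    push_cast at this
    exact this
  linarith

end Pool.Agent.Helper25.HM
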