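import Pool.Agent.Helper25.HM.K6

/-!
# HM-K7: the hybrid mean value theorem for one modulus
-/

set_option autoImplicit false

namespace Pool.Agent.Helper25.HM

open Finset

lemma geo (T : ℕ) (θ : ℝ) :
    (∑ k ∈ Icc (-(T : ℤ)) T, Complex.exp (Complex.I * ((k * θ : ℝ) : ℂ))) *
      (Complex.exp (Complex.I * ((θ / 2 : ℝ) : ℂ)) - Complex.exp (-(Complex.I * ((θ / 2 : ℝ) : ℂ)))) =
    Complex.exp (Complex.I * (((T + 1 / 2) * θ : ℝ) : ℂ)) -
      Complex.exp (-(Complex.I * (((T + 1 / 2) * θ : ℝ) : ℂ))) := by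
  induction T with
  | zero =>
    simp only [Nat.cast_zero, neg_zero, Icc_self, sum_singleton]
    push_cast
    simp only [zero_mul, mul_zero, Complex.exp_zero, one_mul, zero_add]
    ring_nf
  | succ T ih =>
    have e1 : Icc (-((T + 1 : ℕ) : ℤ)) ((T + 1 : ℕ) : ℤ) =
        insert (-((T : ℤ) + 1)) (insert ((T : ℤ) + 1) (Icc (-(T : ℤ)) T)) := by
      ext j
      simp only [mem_insert, mem_Icc]
      push_cast
      omega
    rw [e1, sum_insert (by simp only [mem_insert, mem_Icc]; omega),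
      sum_insert (by simp only [mem_Icc]; omega)]
    rw [add_mul, add_mul, ih]
    have h1 : Complex.exp (Complex.I * ((((-((T : ℤ) + 1) : ℤ) : ℝ) * θ : ℝ) : ℂ)) *
        (Complex.exp (Complex.I * ((θ / 2 : ℝ) : ℂ)) - Complex.exp (-(Complex.I * ((θ / 2 : ℝ) : ℂ)))) =
        Complex.exp (-(Complex.I * (((T + 1 / 2) * θ : ℝ) : ℂ))) -
          Complex.exp (-(Complex.I * ((((T + 1 : ℕ) + 1 / 2) * θ : ℝ) : ℂ))) := by
      rw [mul_sub, ← Complex.exp_add, ← Complex.exp_add]
      congr 2 <;> · push_cast; ring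
    have h2 : Complex.exp (Complex.I * (((((T : ℤ) + 1 : ℤ) : ℝ) * θ : ℝ) : ℂ)) *
        (Complex.exp (Complex.I * ((θ / 2 : ℝ) : ℂ)) - Complex.exp (-(Complex.I * ((θ / 2 : ℝ) : ℂ)))) =
        Complex.exp (Complex.I * ((((T + 1 : ℕ) + 1 / 2) * θ : ℝ) : ℂ)) -
          Complex.exp (Complex.I * (((T + 1 / 2) * θ : ℝ) : ℂ)) := by
      rw [mul_sub, ← Complex.exp_add, ← Complex.exp_add]
      congr 2 <;> · push_cast; ring
    rw [h1, h2]
    ring

/-- The geometric sum. -/
lemma geo_le (T : ℕ) {θ : ℝ} (hθ : θ ≠ 0) (hθ1 : |θ| ≤ 3) :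
    ‖∑ k ∈ Icc (-(T : ℤ)) T, Complex.exp (Complex.I * ((k * θ : ℝ) : ℂ))‖ ≤ 4 / |θ| := by
  have h := geo T θ
  have h1 : ‖Complex.exp (Complex.I * ((θ / 2 : ℝ) : ℂ)) -
      Complex.exp (-(Complex.I * ((θ / 2 : ℝ) : ℂ)))‖ = 2 * |Real.sin (θ / 2)| := by
    have e : Complex.exp (Complex.I * ((θ / 2 : ℝ) : ℂ)) -
        Complex.exp (-(Complex.I * ((θ / 2 : ℝ) : ℂ))) = 2 * Complex.I * ((Real.sin (θ / 2) : ℝ) : ℂ) := by
      rw [Complex.ofReal_sin, Complex.sin]
      have : Complex.I * Complex.I = -1 := Complex.I_mul_I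
      rw [mul_comm Complex.I, mul_div_assoc']
      rw [show 2 * Complex.I * ((Complex.exp (-((θ / 2 : ℝ) : ℂ) * Complex.I) -
        Complex.exp (((θ / 2 : ℝ) : ℂ) * Complex.I)) * Complex.I) / 2 =
        (Complex.I * Complex.I) * (Complex.exp (-((θ / 2 : ℝ) : ℂ) * Complex.I) -
        Complex.exp (((θ / 2 : ℝ) : ℂ) * Complex.I)) by ring, this, neg_mul ((θ / 2 : ℝ) : ℂ)]
      ring
    rw [e, norm_mul, norm_mul, Complex.norm_I, Complex.norm_real, Real.norm_eq_abs]
    norm_num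
  have h2 : ‖Complex.exp (Complex.I * (((T + 1 / 2) * θ : ℝ) : ℂ)) -
      Complex.exp (-(Complex.I * (((T + 1 / 2) * θ : ℝ) : ℂ)))‖ ≤ 2 := by
    refine (norm_sub_le _ _).trans ?_
    have e1 : ‖Complex.exp (Complex.I * (((T + 1 / 2) * θ : ℝ) : ℂ))‖ = 1 := by
      rw [mul_comm, Complex.norm_exp_ofReal_mul_I]
    have e2 : ‖Complex.exp (-(Complex.I * (((T + 1 / 2) * θ : ℝ) : ℂ)))‖ = 1 := by
      rw [show -(Complex.I * (((T + 1 / 2) * θ : ℝ) : ℂ)) = ((-((T + 1 / 2) * θ) : ℝ) : ℂ) * Complex.I by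
        push_cast; ring, Complex.norm_exp_ofReal_mul_I]
    rw [e1, e2]
    norm_num
  have h3 : |θ| / 4 ≤ |Real.sin (θ / 2)| := by
    have hpi3 := Real.pi_gt_three
    have hpi4 := Real.pi_lt_d2
    have h4 : |Real.sin (θ / 2)| = Real.sin (|θ| / 2) := by
      rcases le_total 0 θ with h0 | h0
      · rw [abs_of_nonneg h0]
        rw [abs_of_nonneg h0] at hθ1
        exact abs_of_nonneg (Real.sin_nonneg_of_nonneg_of_le_pi (by linarith) (by linarith))
      · rw [abs_of_nonpos h0]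
        rw [abs_of_nonpos h0] at hθ1
        rw [neg_div, Real.sin_neg]
        have : 0 ≤ Real.sin (-(θ / 2)) :=
          Real.sin_nonneg_of_nonneg_of_le_pi (by linarith) (by linarith)
        rw [Real.sin_neg] at this
        exact abs_of_nonpos (by linarith)
    rw [h4]
    have h5 := Real.mul_le_sin (x := |θ| / 2) (by positivity) (by linarith)
    refine le_trans ?_ h5
    rw [div_mul_div_comm, div_le_div_iff₀ (by norm_num) (by positivity)]
    nlinarith [abs_nonneg θ]
  have h8 : 0 < |θ| := abs_pos.2 hθ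
  have h9 := congrArg norm h
  rw [norm_mul, h1] at h9
  rw [le_div_iff₀ h8]
  nlinarith [norm_nonneg (∑ k ∈ Icc (-(T : ℤ)) T, Complex.exp (Complex.I * ((k * θ : ℝ) : ℂ)))]

/-- Orthogonality. -/
lemma orth {q : ℕ} [NeZero q] (n m : ZMod q) :
    ‖∑ χ : DirichletCharacter ℂ q, χ n * (starRingEnd ℂ) (χ m)‖ ≤ if n = m then (q : ℝ) else 0 := by
  by_cases hm : IsUnit m
  · obtain ⟨u, rfl⟩ := hm
    have h1 : ∀ χ : DirichletCharacter ℂ q, χ n * (starRingEnd ℂ) (χ (u : ZMod q)) =
        χ (n * ((u⁻¹ : (ZMod q)ˣ) : ZMod q)) := by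
      intro χ
      have h2 : (starRingEnd ℂ) (χ (u : ZMod q)) = χ⁻¹ (u : ZMod q) := MulChar.star_apply' _ _
      rw [h2, map_mul, MulChar.inv_apply, Ring.inverse_unit]
    simp_rw [h1, DirichletCharacter.sum_characters_eq]
    by_cases h : n = (u : ZMod q)
    · rw [if_pos h, if_pos (by rw [h]; exact Units.mul_inv u), Complex.norm_natCast]
      exact_mod_cast Nat.totient_le q
    · rw [if_neg h, if_neg, norm_zero]
      intro h2
      apply h
      calc n = n * ((u⁻¹ : (ZMod q)ˣ) : ZMod q) * (u : ZMod q) := by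
            rw [mul_assoc, Units.inv_mul, mul_one]
        _ = u := by rw [h2, one_mul]
  · have h1 : ∑ χ : DirichletCharacter ℂ q, χ n * (starRingEnd ℂ) (χ m) = 0 := by
      apply sum_eq_zero
      intro χ _
      rw [MulChar.map_nonunit χ hm, map_zero, mul_zero]
    rw [h1, norm_zero]
    split_ifs
    · exact Nat.cast_nonneg q
    · exact le_rfl

lemma log_gap {n m X : ℕ} (hn : 0 < n) (hm : 0 < m) (hnX : n ≤ X) (hmX : m ≤ X) :
    |(n : ℝ) - m| / X ≤ |Real.log n - Real.log m| := by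
  have key : ∀ a b : ℕ, 0 < a → 0 < b → a ≤ b → b ≤ X → ((b : ℝ) - a) / X ≤ Real.log b - Real.log a := by
    intro a b ha hb hab hbX
    have ha0 : (0 : ℝ) < a := by exact_mod_cast ha
    have hb0 : (0 : ℝ) < b := by exact_mod_cast hb
    have hbX' : (b : ℝ) ≤ X := by exact_mod_cast hbX
    have hab' : (a : ℝ) ≤ b := by exact_mod_cast hab
    rw [← Real.log_div hb0.ne' ha0.ne']
    have h1 := Real.one_sub_inv_le_log_of_pos (x := (b : ℝ) / a) (by positivity)
    refine le_trans ?_ h1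
    rw [inv_div, one_sub_div hb0.ne']
    exact div_le_div_of_nonneg_left (by linarith) hb0 hbX'
  rcases le_total n m with h | h
  · have h1 := key n m hn hm h hmX
    have h2 : (n : ℝ) ≤ m := by exact_mod_cast h
    have h3 : Real.log n ≤ Real.log m := Real.log_le_log (by exact_mod_cast hn) h2
    rw [abs_of_nonpos (by linarith), abs_of_nonpos (by linarith), neg_sub, neg_sub]
    exact h1
  · have h1 := key m n hm hn h hnX
    have h2 : (m : ℝ) ≤ n := by exact_mod_cast h
    have h3 : Real.log m ≤ Real.log n := Real.log_le_log (by exact_mod_cast hm) h2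
    rw [abs_of_nonneg (by linarith), abs_of_nonneg (by linarith)]
    linarith

/-- The sum of the kernel over a residue class. -/
lemma class_sum {q : ℕ} [NeZero q] {L L' : ℕ} (n : ℕ) :
    ∑ m ∈ (Ioc L L').filter (fun m : ℕ => (n : ZMod q) = (m : ZMod q) ∧ n ≠ m),
      (1 : ℝ) / |(n : ℝ) - m| ≤ 2 / q * (1 + Real.log (n + L' + 1)) := by
  classical
  have hq : 0 < q := Nat.pos_of_ne_zero (NeZero.ne q)
  have hq0 : (0 : ℝ) < q := by exact_mod_cast hq
  set X : ℕ := n + L' + 1 with hX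
  set S := (Ioc L L').filter (fun m : ℕ => (n : ZMod q) = (m : ZMod q) ∧ n ≠ m) with hS
  have hup : ∑ m ∈ S.filter (fun m => n < m), (1 : ℝ) / |(n : ℝ) - m| ≤
      ∑ j ∈ Ico 1 X, 1 / ((q : ℝ) * j) := by
    have h1 : ∀ m ∈ S.filter (fun m => n < m), ∃ j ∈ Ico 1 X, m = n + q * j := by
      intro m hm
      rw [mem_filter, hS, mem_filter, mem_Ioc] at hm
      obtain ⟨⟨⟨h1, h2⟩, h3, h4⟩, h5⟩ := hm
      have h6 : n ≡ m [MOD q] := (ZMod.natCast_eq_natCast_iff n m q).1 h3
      obtain ⟨j, hj⟩ := (Nat.modEq_iff_dvd' h5.le).1 h6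
      refine ⟨j, ?_, by omega⟩
      rw [mem_Ico]
      constructor
      · rcases Nat.eq_zero_or_pos j with h | h
        · rw [h, mul_zero] at hj; omega
        · exact h
      · have : j ≤ q * j := Nat.le_mul_of_pos_left j hq
        omega
    have hinj : S.filter (fun m => n < m) ⊆ (Ico 1 X).image (fun j => n + q * j) := by
      intro m hm
      obtain ⟨j, hj, rfl⟩ := h1 m hm
      exact mem_image_of_mem _ hj
    refine (sum_le_sum_of_subset_of_nonneg hinj (fun _ _ _ => by positivity)).trans ?_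
    rw [sum_image (by
      intro x _ y _ hxy
      have : q * x = q * y := by simp only at hxy; omega
      exact Nat.eq_of_mul_eq_mul_left hq this)]
    refine sum_le_sum fun j _ => ?_
    apply le_of_eq
    push_cast
    rw [show (n : ℝ) - (n + q * j) = -(q * j) by ring, abs_neg, abs_of_nonneg (by positivity)]
  have hdown : ∑ m ∈ S.filter (fun m => ¬ n < m), (1 : ℝ) / |(n : ℝ) - m| ≤
      ∑ j ∈ Ico 1 X, 1 / ((q : ℝ) * j) := by
    have h1 : ∀ m ∈ S.filter (fun m => ¬ n < m), ∃ j ∈ Ico 1 X, n = m + q * j := by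
      intro m hm
      rw [mem_filter, hS, mem_filter, mem_Ioc] at hm
      obtain ⟨⟨⟨h1, h2⟩, h3, h4⟩, h5⟩ := hm
      have h6 : m ≡ n [MOD q] := ((ZMod.natCast_eq_natCast_iff n m q).1 h3).symm
      obtain ⟨j, hj⟩ := (Nat.modEq_iff_dvd' (by omega)).1 h6
      refine ⟨j, ?_, by omega⟩
      rw [mem_Ico]
      constructor
      · rcases Nat.eq_zero_or_pos j with h | h
        · rw [h, mul_zero] at hj; omega
        · exact h
      · have : j ≤ q * j := Nat.le_mul_of_pos_left j hq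
        omega
    have hinj : S.filter (fun m => ¬ n < m) ⊆ (Ico 1 X).image (fun j => n - q * j) := by
      intro m hm
      obtain ⟨j, hj, h2⟩ := h1 m hm
      rw [mem_image]
      exact ⟨j, hj, by omega⟩
    have h2 : ∑ m ∈ S.filter (fun m => ¬ n < m), (1 : ℝ) / |(n : ℝ) - m| ≤
        ∑ j ∈ (Ico 1 X).filter (fun j => q * j ≤ n), 1 / ((q : ℝ) * j) := by
      have hinj2 : S.filter (fun m => ¬ n < m) ⊆
          ((Ico 1 X).filter (fun j => q * j ≤ n)).image (fun j => n - q * j) := by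
        intro m hm
        obtain ⟨j, hj, h2⟩ := h1 m hm
        rw [mem_image]
        exact ⟨j, mem_filter.2 ⟨hj, by omega⟩, by omega⟩
      refine (sum_le_sum_of_subset_of_nonneg hinj2 (fun _ _ _ => by positivity)).trans ?_
      rw [sum_image (by
        intro x hx y hy hxy
        rw [coe_filter, Set.mem_setOf_eq] at hx hy
        have : q * x = q * y := by simp only at hxy; omega
        exact Nat.eq_of_mul_eq_mul_left hq this)]
      refine sum_le_sum fun j hj => ?_
      rw [mem_filter] at hj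
      apply le_of_eq
      rw [Nat.cast_sub hj.2]
      push_cast
      rw [show (n : ℝ) - (n - q * j) = q * j by ring, abs_of_nonneg (by positivity)]
    refine h2.trans ?_
    exact sum_le_sum_of_subset_of_nonneg (filter_subset _ _) (fun _ _ _ => by positivity)
  have hh : ∑ j ∈ Ico 1 X, 1 / ((q : ℝ) * j) ≤ 1 / q * (1 + Real.log X) := by
    have e : ∀ j ∈ Ico 1 X, 1 / ((q : ℝ) * j) = 1 / q * (1 / (j : ℝ)) := by
      intro j _
      rw [div_mul_div_comm, mul_one]
    rw [sum_congr rfl e, ← mul_sum]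
    exact mul_le_mul_of_nonneg_left (harm X) (by positivity)
  rw [← sum_filter_add_sum_filter_not S (fun m => n < m)]
  have hX' : ((n : ℝ) + L' + 1) = (X : ℝ) := by rw [hX]; push_cast; ring
  rw [hX']
  calc _ ≤ 1 / q * (1 + Real.log X) + 1 / q * (1 + Real.log X) :=
        add_le_add (hup.trans hh) (hdown.trans hh)
    _ = _ := by ring

/-- The hybrid mean value theorem on `(L, L']`, `L' ≤ 8 (L + 1)`. -/
theorem mean {q : ℕ} [NeZero q] (T : ℕ) {L L' : ℕ} (hL' : L' ≤ 8 * (L + 1)) (a : ℕ → ℂ) :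
    ∑ χ : DirichletCharacter ℂ q, ∑ k ∈ Icc (-(T : ℤ)) T, ‖D L L' a (χ, k)‖ ^ 2 ≤
      (q * (2 * T + 1) + 8 * L' * (1 + Real.log (2 * L' + 1))) * ∑ n ∈ Ioc L L', ‖a n‖ ^ 2 := by
  classical
  have hq : 0 < q := Nat.pos_of_ne_zero (NeZero.ne q)
  have hq0 : (0 : ℝ) < q := by exact_mod_cast hq
  -- the kernel
  set κ : ℕ → ℕ → ℂ := fun n m => ∑ k ∈ Icc (-(T : ℤ)) T,
    Complex.exp (Complex.I * ((k * (Real.log n - Real.log m) : ℝ) : ℂ)) with hκ
  have hκ1 : ∀ n m, ‖κ n m‖ ≤ 2 * T + 1 := by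
    intro n m
    refine (norm_sum_le _ _).trans ?_
    have : ∀ k ∈ Icc (-(T : ℤ)) T,
        ‖Complex.exp (Complex.I * ((k * (Real.log n - Real.log m) : ℝ) : ℂ))‖ ≤ 1 := by
      intro k _
      rw [mul_comm, Complex.norm_exp_ofReal_mul_I]
    refine (sum_le_sum this).trans ?_
    rw [sum_const, Int.card_Icc, nsmul_eq_mul, mul_one]
    have : ((T : ℤ) + 1 - -(T : ℤ)).toNat = 2 * T + 1 := by omega
    rw [this]
    push_cast
    exact le_rfl
  have hκ2 : ∀ n ∈ Ioc L L', ∀ m ∈ Ioc L L', n ≠ m → ‖κ n m‖ ≤ 4 * L' * (1 / |(n : ℝ) - m|) := by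
    intro n hn m hm hnm
    rw [mem_Ioc] at hn hm
    have hn0 : 0 < n := by omega
    have hm0 : 0 < m := by omega
    have hL'0 : (0 : ℝ) < L' := by exact_mod_cast (by omega : 0 < L')
    have hgap := log_gap hn0 hm0 hn.2 hm.2
    have hnmR : (n : ℝ) - m ≠ 0 := by
      rw [sub_ne_zero]
      exact_mod_cast hnm
    have h1 : 0 < |(n : ℝ) - m| := abs_pos.2 hnmR
    have h2 : 0 < |(n : ℝ) - m| / L' := by positivity
    have h3 : Real.log n - Real.log m ≠ 0 := by
      intro h
      rw [h, abs_zero] at hgap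
      linarith
    have hlog8 : Real.log 8 ≤ 3 := by
      have : Real.log 8 = 3 * Real.log 2 := by
        rw [show (8 : ℝ) = 2 ^ 3 by norm_num, Real.log_pow]
        push_cast
        ring
      rw [this]
      have := Real.log_two_lt_d9
      linarith
    have hub : ∀ x y : ℕ, L < x → L < y → x ≤ L' → y ≤ L' → Real.log x - Real.log y ≤ 3 := by
      intro x y hx hy hx' hy'
      have hx0 : (0 : ℝ) < x := by exact_mod_cast (by omega : 0 < x)
      have hy0 : (0 : ℝ) < y := by exact_mod_cast (by omega : 0 < y)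
      rw [← Real.log_div hx0.ne' hy0.ne']
      refine le_trans ?_ hlog8
      apply Real.log_le_log (by positivity)
      rw [div_le_iff₀ hy0]
      have : x ≤ 8 * y := by omega
      exact_mod_cast this
    have h4 : |Real.log n - Real.log m| ≤ 3 := by
      rw [abs_le]
      constructor
      · have := hub m n (by omega) (by omega) (by omega) (by omega)
        linarith
      · exact hub n m (by omega) (by omega) (by omega) (by omega)
    refine (geo_le T h3 h4).trans ?_
    rw [div_le_iff₀ (abs_pos.2 h3)]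
    have h5 : 4 * (L' : ℝ) * (1 / |(n : ℝ) - m|) * (|(n : ℝ) - m| / L') = 4 := by
      field_simp
    calc (4 : ℝ) = 4 * (L' : ℝ) * (1 / |(n : ℝ) - m|) * (|(n : ℝ) - m| / L') := h5.symm
      _ ≤ 4 * (L' : ℝ) * (1 / |(n : ℝ) - m|) * |Real.log n - Real.log m| :=
        mul_le_mul_of_nonneg_left hgap (by positivity)
  -- expansion
  have hexp : ∀ (χ : DirichletCharacter ℂ q) (k : ℤ), ((‖D L L' a (χ, k)‖ ^ 2 : ℝ) : ℂ) =
      ∑ n ∈ Ioc L L', ∑ m ∈ Ioc L L', (a n * (starRingEnd ℂ) (a m)) *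
        (χ (n : ZMod q) * (starRingEnd ℂ) (χ (m : ZMod q))) *
          Complex.exp (Complex.I * ((k * (Real.log n - Real.log m) : ℝ) : ℂ)) := by
    intro χ k
    rw [Complex.ofReal_pow, ← Complex.mul_conj']
    unfold D
    rw [map_sum, sum_mul_sum]
    refine sum_congr rfl fun n _ => sum_congr rfl fun m _ => ?_
    simp only [map_mul, conj_nt]
    have : nt n k * nt m (-k) =
        Complex.exp (Complex.I * ((k * (Real.log n - Real.log m) : ℝ) : ℂ)) := by
      unfold nt
      rw [← Complex.exp_add]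
      congr 1
      push_cast
      ring
    rw [← this]
    ring
  have htot : ((∑ χ : DirichletCharacter ℂ q, ∑ k ∈ Icc (-(T : ℤ)) T, ‖D L L' a (χ, k)‖ ^ 2 : ℝ) : ℂ) =
      ∑ n ∈ Ioc L L', ∑ m ∈ Ioc L L', (a n * (starRingEnd ℂ) (a m)) *
        (∑ χ : DirichletCharacter ℂ q, χ (n : ZMod q) * (starRingEnd ℂ) (χ (m : ZMod q))) * κ n m := by
    rw [Complex.ofReal_sum]
    simp_rw [Complex.ofReal_sum, hexp]
    rw [show (∑ χ : DirichletCharacter ℂ q, ∑ k ∈ Icc (-(T : ℤ)) T, ∑ n ∈ Ioc L L', ∑ m ∈ Ioc L L',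
        (a n * (starRingEnd ℂ) (a m)) * (χ (n : ZMod q) * (starRingEnd ℂ) (χ (m : ZMod q))) *
          Complex.exp (Complex.I * ((k * (Real.log n - Real.log m) : ℝ) : ℂ))) =
        ∑ χ : DirichletCharacter ℂ q, ∑ n ∈ Ioc L L', ∑ m ∈ Ioc L L',
        (a n * (starRingEnd ℂ) (a m)) * (χ (n : ZMod q) * (starRingEnd ℂ) (χ (m : ZMod q))) * κ n m from by
      refine sum_congr rfl fun χ _ => ?_
      rw [sum_comm]
      refine sum_congr rfl fun n _ => ?_
      rw [sum_comm]
      refine sum_congr rfl fun m _ => ?_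
      rw [hκ, mul_sum]]
    rw [sum_comm]
    refine sum_congr rfl fun n _ => ?_
    rw [sum_comm]
    refine sum_congr rfl fun m _ => ?_
    rw [← sum_mul, ← mul_sum]
  set ω : ℕ → ℕ → ℝ := fun n m => if (n : ZMod q) = (m : ZMod q) then (q : ℝ) * ‖κ n m‖ else 0 with hω
  have hωs : ∀ n m, ω n m = ω m n := by
    intro n m
    simp only [hω]
    have h1 : ‖κ n m‖ = ‖κ m n‖ := by
      rw [← Complex.norm_conj (κ n m), hκ]
      simp only [map_sum]
      congr 1
      refine sum_congr rfl fun k _ => ?_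
      rw [← Complex.exp_conj]
      congr 1
      simp only [map_mul, Complex.conj_I, Complex.conj_ofReal]
      push_cast
      ring
    rw [h1]
    by_cases h : (n : ZMod q) = (m : ZMod q)
    · rw [if_pos h, if_pos h.symm]
    · rw [if_neg h, if_neg (fun h' => h h'.symm)]
  have hω0 : ∀ n m, 0 ≤ ω n m := by
    intro n m
    simp only [hω]
    split_ifs <;> positivity
  have hrow : ∀ n ∈ Ioc L L', ∑ m ∈ Ioc L L', ω n m ≤
      q * (2 * T + 1) + 8 * L' * (1 + Real.log (2 * L' + 1)) := by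
    intro n hn
    have hn' := mem_Ioc.1 hn
    have h1 : ∑ m ∈ Ioc L L', ω n m = ω n n + ∑ m ∈ (Ioc L L').erase n, ω n m :=
      (add_sum_erase _ _ hn).symm
    rw [h1]
    apply add_le_add
    · simp only [hω, if_true]
      exact mul_le_mul_of_nonneg_left (hκ1 n n) hq0.le
    · have h2 : ∑ m ∈ (Ioc L L').erase n, ω n m ≤
          ∑ m ∈ (Ioc L L').filter (fun m : ℕ => (n : ZMod q) = (m : ZMod q) ∧ n ≠ m),
            q * (4 * L' * (1 / |(n : ℝ) - m|)) := by
        have h3 : ∑ m ∈ (Ioc L L').erase n, ω n m =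
            ∑ m ∈ (Ioc L L').filter (fun m : ℕ => (n : ZMod q) = (m : ZMod q) ∧ n ≠ m), ω n m := by
          symm
          apply sum_subset
          · intro m hm
            rw [mem_filter] at hm
            rw [mem_erase]
            exact ⟨fun h => hm.2.2 h.symm, hm.1⟩
          · intro m hm hm2
            rw [mem_erase] at hm
            rw [mem_filter, not_and] at hm2
            have h4 := hm2 hm.2
            simp only [hω]
            rw [if_neg]
            intro h5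
            exact h4 ⟨h5, fun h => hm.1 h.symm⟩
        rw [h3]
        refine sum_le_sum fun m hm => ?_
        rw [mem_filter] at hm
        simp only [hω]
        rw [if_pos hm.2.1]
        exact mul_le_mul_of_nonneg_left (hκ2 n hn m hm.1 hm.2.2) hq0.le
      refine h2.trans ?_
      have h6 : ∑ m ∈ (Ioc L L').filter (fun m : ℕ => (n : ZMod q) = (m : ZMod q) ∧ n ≠ m),
            q * (4 * L' * (1 / |(n : ℝ) - m|)) = 4 * q * L' *
          ∑ m ∈ (Ioc L L').filter (fun m : ℕ => (n : ZMod q) = (m : ZMod q) ∧ n ≠ m),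
            (1 / |(n : ℝ) - m|) := by
        rw [mul_sum]
        refine sum_congr rfl fun m _ => ?_
        ring
      rw [h6]
      have h7 := class_sum (q := q) (L := L) (L' := L') n
      have h8 : Real.log (n + L' + 1) ≤ Real.log (2 * L' + 1) := by
        have hnL : (n : ℝ) ≤ L' := by exact_mod_cast hn'.2
        apply Real.log_le_log (by positivity)
        linarith
      calc 4 * q * L' * ∑ m ∈ (Ioc L L').filter
            (fun m : ℕ => (n : ZMod q) = (m : ZMod q) ∧ n ≠ m), (1 / |(n : ℝ) - m|)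
          ≤ 4 * q * L' * (2 / q * (1 + Real.log (2 * L' + 1))) := by
            apply mul_le_mul_of_nonneg_left _ (by positivity)
            refine h7.trans ?_
            gcongr
        _ = 8 * L' * (1 + Real.log (2 * L' + 1)) := by
            field_simp
            ring
  set C : ℝ := q * (2 * T + 1) + 8 * L' * (1 + Real.log (2 * L' + 1)) with hC
  have hpos : 0 ≤ ∑ χ : DirichletCharacter ℂ q, ∑ k ∈ Icc (-(T : ℤ)) T, ‖D L L' a (χ, k)‖ ^ 2 :=
    sum_nonneg fun _ _ => sum_nonneg fun _ _ => sq_nonneg _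
  have h1 : ∑ χ : DirichletCharacter ℂ q, ∑ k ∈ Icc (-(T : ℤ)) T, ‖D L L' a (χ, k)‖ ^ 2 =
      ‖((∑ χ : DirichletCharacter ℂ q, ∑ k ∈ Icc (-(T : ℤ)) T, ‖D L L' a (χ, k)‖ ^ 2 : ℝ) : ℂ)‖ := by
    rw [Complex.norm_real, Real.norm_eq_abs, abs_of_nonneg hpos]
  rw [h1, htot]
  calc _ ≤ ∑ n ∈ Ioc L L', ∑ m ∈ Ioc L L', ‖a n‖ * ‖a m‖ * ω n m := by
        refine (norm_sum_le _ _).trans (sum_le_sum fun n _ => ?_)
        refine (norm_sum_le _ _).trans (sum_le_sum fun m _ => ?_)
        rw [norm_mul, norm_mul, norm_mul, Complex.norm_conj, mul_assoc (‖a n‖ * ‖a m‖)]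
        apply mul_le_mul_of_nonneg_left _ (by positivity)
        have h2 := orth (n : ZMod q) (m : ZMod q)
        simp only [hω]
        by_cases h : (n : ZMod q) = (m : ZMod q)
        · rw [if_pos h] at h2 ⊢
          exact mul_le_mul_of_nonneg_right h2 (norm_nonneg _)
        · rw [if_neg h] at h2 ⊢
          have h3 := le_antisymm h2 (norm_nonneg _)
          rw [h3, zero_mul]
    _ ≤ ∑ n ∈ Ioc L L', ∑ m ∈ Ioc L L', (‖a n‖ ^ 2 * ω n m / 2 + ‖a m‖ ^ 2 * ω n m / 2) := by
        refine sum_le_sum fun n _ => sum_le_sum fun m _ => ?_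
        nlinarith [mul_nonneg (sq_nonneg (‖a n‖ - ‖a m‖)) (hω0 n m)]
    _ = ∑ n ∈ Ioc L L', ‖a n‖ ^ 2 * ∑ m ∈ Ioc L L', ω n m := by
        simp_rw [sum_add_distrib]
        have h4 : ∑ n ∈ Ioc L L', ∑ m ∈ Ioc L L', ‖a m‖ ^ 2 * ω n m / 2 =
            ∑ n ∈ Ioc L L', ∑ m ∈ Ioc L L', ‖a n‖ ^ 2 * ω n m / 2 := by
          rw [sum_comm]
          refine sum_congr rfl fun n _ => sum_congr rfl fun m _ => ?_
          rw [hωs]
        rw [h4, ← sum_add_distrib]
        refine sum_congr rfl fun n _ => ?_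
        rw [← sum_add_distrib, mul_sum]
        refine sum_congr rfl fun m _ => ?_
        ring
    _ ≤ ∑ n ∈ Ioc L L', ‖a n‖ ^ 2 * C :=
        sum_le_sum fun n hn => mul_le_mul_of_nonneg_left (hrow n hn) (sq_nonneg _)
    _ = C * ∑ n ∈ Ioc L L', ‖a n‖ ^ 2 := by
        rw [← sum_mul, mul_comm]

end Pool.Agent.Helper25.HM
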