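import Pool.Agent.Helper97.BD.MellinExp
import Pool.Agent.Helper25.HM.Defs

/-!
# HM-K9: the phase `e(n β)` by the Mellin transform of `exp` on the line `1/2`

`exp(-n w) = (1/2π) ∫ Γ(1/2 + it) (n w)^{-1/2 - it} dt`, `w = δ - 2π i β`, with
`|Γ(1/2 + it) w^{-1/2-it}| ≤ C |w|^{-1/2} exp(-c' |t|)`, `c' = δ / (2π (δ + |β|))`; the integral is an
average over `θ` of sums over `t = k + θ`.
-/

set_option autoImplicit false

namespace Pool.Agent.Helper25.HM

open Finset MeasureTheory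

/-- The rate. -/
noncomputable def w (δ β : ℝ) : ℂ := (δ : ℂ) - 2 * Real.pi * β * Complex.I

lemma w_re (δ β : ℝ) : (w δ β).re = δ := by simp [w]

lemma w_im (δ β : ℝ) : (w δ β).im = -(2 * Real.pi * β) := by simp [w]

lemma w_ne {δ β : ℝ} (hδ : 0 < δ) : w δ β ≠ 0 := by
  intro h
  have := w_re δ β
  rw [h] at this
  simp at this
  linarith

lemma norm_w_le {δ β : ℝ} (hδ : 0 < δ) : ‖w δ β‖ ≤ 2 * Real.pi * (δ + |β|) := by
  have hpi := Real.pi_gt_three
  have h := Complex.norm_le_abs_re_add_abs_im (w δ β)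
  rw [w_re, w_im, abs_neg, abs_mul, abs_of_pos hδ, abs_of_pos (by positivity : (0 : ℝ) < 2 * Real.pi)] at h
  nlinarith

lemma le_norm_w {δ β : ℝ} (hδ : 0 < δ) : (δ + |β|) / 2 ≤ ‖w δ β‖ := by
  have hpi := Real.pi_gt_three
  have h1 := Complex.abs_re_le_norm (w δ β)
  have h2 := Complex.abs_im_le_norm (w δ β)
  rw [w_re, abs_of_pos hδ] at h1
  rw [w_im, abs_neg, abs_mul, abs_of_pos (by positivity : (0 : ℝ) < 2 * Real.pi)] at h2
  nlinarith [abs_nonneg β]

/-- The rate of decay. -/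
noncomputable def cr (δ β : ℝ) : ℝ := δ / (2 * Real.pi * (δ + |β|))

lemma cr_pos {δ β : ℝ} (hδ : 0 < δ) : 0 < cr δ β := by
  unfold cr
  have := Real.pi_pos
  positivity

lemma arg_gap {δ β : ℝ} (hδ : 0 < δ) : cr δ β ≤ Real.pi / 2 - |(w δ β).arg| := by
  have hw0 := w_ne (β := β) hδ
  have hn : 0 < ‖w δ β‖ := norm_pos_iff.2 hw0
  have hab : |(w δ β).arg| ≤ Real.pi / 2 := by
    rw [Complex.abs_arg_le_pi_div_two_iff, w_re]
    exact hδ.le
  have h1 : Real.cos (w δ β).arg = δ / ‖w δ β‖ := by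
    rw [Complex.cos_arg hw0, w_re]
  have h2 : Real.cos (w δ β).arg ≤ Real.pi / 2 - |(w δ β).arg| := by
    rw [← Real.cos_abs, ← Real.sin_pi_div_two_sub]
    exact Real.sin_le (by linarith)
  refine le_trans ?_ h2
  rw [h1]
  unfold cr
  exact div_le_div_of_nonneg_left hδ.le hn (norm_w_le hδ)

lemma abs_arg_lt {δ β : ℝ} (hδ : 0 < δ) : |(w δ β).arg| < Real.pi / 2 := by
  have h1 := arg_gap (β := β) hδ
  have h2 := cr_pos (β := β) hδ
  linarith

lemma norm_Gamma_half (t : ℝ) :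
    ‖Complex.Gamma (((1 / 2 : ℝ) : ℂ) + (t : ℂ) * Complex.I)‖ ^ 2 = Real.pi / Real.cosh (Real.pi * t) := by
  set s : ℂ := ((1 / 2 : ℝ) : ℂ) + (t : ℂ) * Complex.I with hs
  have h1 : (1 : ℂ) - s = (starRingEnd ℂ) s := by
    rw [hs, map_add, map_mul, Complex.conj_I, Complex.conj_ofReal, Complex.conj_ofReal]
    push_cast
    ring
  have h2 := Complex.Gamma_mul_Gamma_one_sub s
  rw [h1, Complex.Gamma_conj] at h2
  have h3 : ‖Complex.Gamma s‖ ^ 2 = ‖(Real.pi : ℂ) / Complex.sin (Real.pi * s)‖ := by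
    rw [← h2, norm_mul, Complex.norm_conj, pow_two]
  rw [h3, norm_div, Complex.norm_real, Real.norm_of_nonneg Real.pi_pos.le]
  congr 1
  have h4 : (Real.pi : ℂ) * s = (Real.pi : ℂ) / 2 - ((-(Real.pi * t) : ℝ) : ℂ) * Complex.I := by
    rw [hs]
    push_cast
    ring
  rw [h4, Complex.sin_pi_div_two_sub, Complex.cos_mul_I, ← Complex.ofReal_cosh, Complex.norm_real,
    Real.norm_of_nonneg (Real.cosh_pos _).le, Real.cosh_neg]

/-- The kernel. -/
noncomputable def G (δ β t : ℝ) : ℂ :=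
  (1 / (2 * Real.pi) : ℂ) * (Complex.Gamma (((1 / 2 : ℝ) : ℂ) + (t : ℂ) * Complex.I) *
    Complex.exp (-(Complex.log (w δ β) * (((1 / 2 : ℝ) : ℂ) + (t : ℂ) * Complex.I))))

lemma norm_G_le {δ β : ℝ} (hδ : 0 < δ) (t : ℝ) :
    ‖G δ β t‖ ≤ 1 / Real.sqrt (δ + |β|) * Real.exp (-(cr δ β * |t|)) := by
  have hpi := Real.pi_pos
  have hpi3 := Real.pi_gt_three
  have hw0 := w_ne (β := β) hδ
  have hn : 0 < ‖w δ β‖ := norm_pos_iff.2 hw0
  have hδβ : 0 < δ + |β| := by positivity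
  have hG := norm_Gamma_half t
  set Γt := ‖Complex.Gamma (((1 / 2 : ℝ) : ℂ) + (t : ℂ) * Complex.I)‖ with hΓt
  have hE : ‖Complex.exp (-(Complex.log (w δ β) * (((1 / 2 : ℝ) : ℂ) + (t : ℂ) * Complex.I)))‖ =
      Real.exp (-(Real.log ‖w δ β‖ / 2) + (w δ β).arg * t) := by
    rw [Complex.norm_exp]
    congr 1
    simp only [Complex.neg_re, Complex.mul_re, Complex.add_re, Complex.add_im, Complex.ofReal_re,
      Complex.ofReal_im, Complex.mul_im, Complex.I_re, Complex.I_im, Complex.log_re, Complex.log_im]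
    ring
  have h1 : ‖G δ β t‖ = 1 / (2 * Real.pi) * (Γt * Real.exp (-(Real.log ‖w δ β‖ / 2) + (w δ β).arg * t)) := by
    unfold G
    rw [norm_mul, norm_mul, hE, ← hΓt]
    congr 1
    rw [norm_div, norm_one, norm_mul, Complex.norm_real, Real.norm_of_nonneg hpi.le]
    norm_num
  have h2 : ‖G δ β t‖ ^ 2 ≤ (1 / Real.sqrt (δ + |β|) * Real.exp (-(cr δ β * |t|))) ^ 2 := by
    rw [h1]
    have e1 : (1 / (2 * Real.pi) * (Γt * Real.exp (-(Real.log ‖w δ β‖ / 2) + (w δ β).arg * t))) ^ 2 =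
        1 / (4 * Real.pi ^ 2) * (Real.pi / Real.cosh (Real.pi * t)) *
          (1 / ‖w δ β‖ * Real.exp (2 * ((w δ β).arg * t))) := by
      rw [mul_pow, mul_pow, hG, ← Real.exp_nat_mul]
      have : Real.exp (((2 : ℕ) : ℝ) * (-(Real.log ‖w δ β‖ / 2) + (w δ β).arg * t)) =
          1 / ‖w δ β‖ * Real.exp (2 * ((w δ β).arg * t)) := by
        have e : ((2 : ℕ) : ℝ) * (-(Real.log ‖w δ β‖ / 2) + (w δ β).arg * t) =
            -Real.log ‖w δ β‖ + 2 * ((w δ β).arg * t) := by push_cast; ring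
        rw [e, Real.exp_add, Real.exp_neg, Real.exp_log hn, one_div]
      rw [this]
      ring
    have e2 : (1 / Real.sqrt (δ + |β|) * Real.exp (-(cr δ β * |t|))) ^ 2 =
        1 / (δ + |β|) * Real.exp (-(2 * (cr δ β * |t|))) := by
      rw [mul_pow, div_pow, one_pow, Real.sq_sqrt hδβ.le, ← Real.exp_nat_mul]
      congr 2
      push_cast
      ring
    rw [e1, e2]
    have h3 : Real.exp (Real.pi * |t|) / 2 ≤ Real.cosh (Real.pi * t) := by
      rw [← Real.cosh_abs, abs_mul, abs_of_pos hpi, Real.cosh_eq]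
      have := Real.exp_pos (-(Real.pi * |t|))
      linarith
    have h4 : Real.pi / Real.cosh (Real.pi * t) ≤ 2 * Real.pi * Real.exp (-(Real.pi * |t|)) := by
      rw [div_le_iff₀ (Real.cosh_pos _)]
      have h5 : Real.exp (-(Real.pi * |t|)) * Real.exp (Real.pi * |t|) = 1 := by
        rw [← Real.exp_add]; simp
      have h6 := mul_le_mul_of_nonneg_left h3
        (by positivity : 0 ≤ 2 * Real.pi * Real.exp (-(Real.pi * |t|)))
      nlinarith
    have h5 : 1 / ‖w δ β‖ ≤ 2 / (δ + |β|) := by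
      rw [div_le_div_iff₀ hn hδβ]
      have := le_norm_w (β := β) hδ
      linarith
    have h6 : Real.exp (2 * ((w δ β).arg * t)) ≤ Real.exp (2 * (|(w δ β).arg| * |t|)) := by
      apply Real.exp_le_exp.2
      have : (w δ β).arg * t ≤ |(w δ β).arg| * |t| := by
        rw [← abs_mul]
        exact le_abs_self _
      linarith
    calc 1 / (4 * Real.pi ^ 2) * (Real.pi / Real.cosh (Real.pi * t)) *
          (1 / ‖w δ β‖ * Real.exp (2 * ((w δ β).arg * t)))
        ≤ 1 / (4 * Real.pi ^ 2) * (2 * Real.pi * Real.exp (-(Real.pi * |t|))) *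
          (2 / (δ + |β|) * Real.exp (2 * (|(w δ β).arg| * |t|))) := by
          have := Real.cosh_pos (Real.pi * t)
          gcongr
      _ = 1 / Real.pi * (1 / (δ + |β|) *
          (Real.exp (-(Real.pi * |t|)) * Real.exp (2 * (|(w δ β).arg| * |t|)))) := by
          field_simp
          ring
      _ ≤ 1 * (1 / (δ + |β|) * Real.exp (-(2 * (cr δ β * |t|)))) := by
          apply mul_le_mul
          · rw [div_le_one hpi]; linarith
          · apply mul_le_mul_of_nonneg_left _ (by positivity)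
            rw [← Real.exp_add]
            apply Real.exp_le_exp.2
            have h7 := arg_gap (β := β) hδ
            nlinarith [abs_nonneg t, mul_le_mul_of_nonneg_right h7 (abs_nonneg t)]
          · positivity
          · norm_num
      _ = _ := one_mul _
  exact le_of_sq_le_sq h2 (by positivity)

end Pool.Agent.Helper25.HM
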